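import Mathlib

/-!
Basic definitions for the thin-set construction (helper149, MP_c06095_nt).
-/

noncomputable section

namespace Pool.Agent.Helper149.Thin

open Finset

/-- `pc s n` is the coefficient of `z^n` in `(1 - z)^(-s)`. -/
def pc (s : ℝ) (n : ℕ) : ℝ := ∏ j ∈ range n, ((s + j) / (j + 1))

/-- the root of unity `exp (2πi/M)` -/
def zt (M : ℕ) : ℂ := Complex.exp (2 * Real.pi * Complex.I / M)

end Pool.Agent.Helper149.Thin
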