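import Pool.Agent.Helper149.Thin.Main

noncomputable section

namespace Pool.Agent.Helper149.Thin

open Finset

/-- increment of the number of tuples fixed by `σ` -/
def Dd (A : Set ℕ) {k : ℕ} (σ : Equiv.Perm (Fin k)) (m n : ℕ) : ℝ :=
  (D A σ m (n + 1) : ℝ) - D A σ m n

theorem main_pos {θ : ℝ} (h0 : 0 < θ) (h1 : θ ≤ 1) (k : ℕ) (hk : 1 ≤ k)
    (hkθ : 2 ≤ ((k : ℝ) - 1) * θ) (hkθ4 : 4 < (k : ℝ) * θ) {A : Set ℕ} {C0 : ℝ}
    (hC0 : 0 < C0) (h : Small θ A C0) :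
    ∃ m0 : ℕ, ∀ m ≥ m0, ∀ n : ℕ, n + 1 < 2 ^ m → 2 ^ m ≤ 2 * (n + 1) →
      ∑ σ ∈ (univ : Finset (Equiv.Perm (Fin k))).erase 1, |Dd A σ m n| < Dd A (1 : Equiv.Perm (Fin k)) m n := by
  obtain ⟨C1, hC1, hs1⟩ := step_one h0 h1 k hk hkθ hC0 h
  have hσ : ∀ σ : Equiv.Perm (Fin k), ∃ C : ℝ, 0 < C ∧ (σ ≠ 1 → ∀ m n : ℕ, n + 1 < 2 ^ m →
      |(D A σ m (n + 1) : ℝ) - D A σ m n| ≤ C * ((m : ℝ) + 1) ^ (2 * k + 1) * GG θ k m) := by
    intro σ
    by_cases hσ1 : σ = 1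
    · exact ⟨1, one_pos, fun h => absurd hσ1 h⟩
    · obtain ⟨C, hC, hs⟩ := step_sigma h0 h1 k hk hC0 h σ hσ1
      exact ⟨C, hC, fun _ => hs⟩
  choose Cσ hCσ hsσ using hσ
  obtain ⟨c, hc, hlow⟩ := pc_lower (s := (k : ℝ) * θ - 1) (by linarith)
  set T : ℝ := C1 + ∑ σ ∈ (univ : Finset (Equiv.Perm (Fin k))).erase 1, Cσ σ with hT
  set c' : ℝ := c * (2 : ℝ) ^ (-((k : ℝ) * θ - 2)) with hc'
  have hc'pos : 0 < c' := by positivity
  obtain ⟨m1, hm1⟩ := asymp (c := c' / 2) (C := T) (γ := (k : ℝ) * θ - 2 - θ / 2)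
    (δ := (k : ℝ) * θ - 2) (by positivity) (by linarith) (2 * k + 1)
  obtain ⟨m2, hm2⟩ := asymp (c := c' / 2) (C := T) (γ := (k : ℝ) * θ / 2)
    (δ := (k : ℝ) * θ - 2) (by positivity) (by linarith) (2 * k + 1)
  refine ⟨max m1 m2, fun m hm n hn hn2 => ?_⟩
  have e1 := hm1 m (le_trans (le_max_left _ _) hm)
  have e2 := hm2 m (le_trans (le_max_right _ _) hm)
  have e3 : T * ((m : ℝ) + 1) ^ (2 * k + 1) * GG θ k m < c' * ((2 : ℝ) ^ m) ^ ((k : ℝ) * θ - 2) := by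
    rw [GG, mul_add]; linarith
  have hx0 : (0:ℝ) < (2:ℝ) ^ m := by positivity
  have e4 : c' * ((2 : ℝ) ^ m) ^ ((k : ℝ) * θ - 2) ≤ pc (k * θ - 1) (n + 1) := by
    refine le_trans ?_ (hlow (n + 1))
    have e5 : (k : ℝ) * θ - 1 - 1 = (k : ℝ) * θ - 2 := by ring
    rw [e5, hc', mul_assoc]
    refine mul_le_mul_of_nonneg_left ?_ hc.le
    have e6 : (2 : ℝ) ^ (-((k : ℝ) * θ - 2)) * ((2 : ℝ) ^ m) ^ ((k : ℝ) * θ - 2)
        = ((2:ℝ) ^ m / 2) ^ ((k : ℝ) * θ - 2) := by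
      rw [Real.div_rpow hx0.le (by norm_num), Real.rpow_neg (by norm_num)]
      field_simp
    rw [e6]
    refine Real.rpow_le_rpow (by positivity) ?_ (by linarith)
    have : ((2 : ℝ) ^ m) ≤ 2 * ((n:ℝ) + 1) := by exact_mod_cast hn2
    push_cast
    linarith
  have f1 := hs1 m n hn
  rw [abs_le] at f1
  have f2 : ∑ σ ∈ (univ : Finset (Equiv.Perm (Fin k))).erase 1, |Dd A σ m n|
      ≤ (∑ σ ∈ (univ : Finset (Equiv.Perm (Fin k))).erase 1, Cσ σ) *
        (((m : ℝ) + 1) ^ (2 * k + 1) * GG θ k m) := by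
    rw [Finset.sum_mul]
    refine Finset.sum_le_sum fun σ hσ => ?_
    rw [Finset.mem_erase] at hσ
    have := hsσ σ hσ.1 m n hn
    rw [Dd]
    linarith
  have f3 : T * ((m : ℝ) + 1) ^ (2 * k + 1) * GG θ k m
      = C1 * ((m : ℝ) + 1) ^ (2 * k + 1) * GG θ k m
        + (∑ σ ∈ (univ : Finset (Equiv.Perm (Fin k))).erase 1, Cσ σ) *
        (((m : ℝ) + 1) ^ (2 * k + 1) * GG θ k m) := by
    rw [hT]; ring
  have f4 : Dd A (1 : Equiv.Perm (Fin k)) m n = (D A (1 : Equiv.Perm (Fin k)) m (n + 1) : ℝ)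
      - D A (1 : Equiv.Perm (Fin k)) m n := rfl
  rw [f4]
  linarith [f1.1]

/-- number of ordered representations -/
def rep1 (A : Set ℕ) (k n : ℕ) : ℕ :=
  Nat.card {f : Fin k → ℕ // (∀ i, f i ∈ A) ∧ ∑ i, f i = n}

/-- number of unordered representations -/
def rep2 (A : Set ℕ) (k n : ℕ) : ℕ :=
  Nat.card {f : Fin k → ℕ // (∀ i, f i ∈ A) ∧ ∑ i, f i = n ∧ Monotone f}

/-- number of representations with distinct summands -/
def rep3 (A : Set ℕ) (k n : ℕ) : ℕ :=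
  Nat.card {f : Fin k → ℕ // (∀ i, f i ∈ A) ∧ ∑ i, f i = n ∧ StrictMono f}

/-- counting function -/
def cnt (A : Set ℕ) (n : ℕ) : ℕ := Nat.card {a : ℕ // a ∈ A ∧ a ≤ n}

theorem rep1_eq (A : Set ℕ) (k m n : ℕ) (hn : n < 2 ^ m) :
    rep1 ((fun a => a + 1) '' A) k (n + k) = D A (1 : Equiv.Perm (Fin k)) m n := by
  classical
  have h := bridge A k (2 ^ m) n hn (fun _ => True) (fun _ => Iff.rfl)
  have e : rep1 ((fun a => a + 1) '' A) k (n + k)
      = Nat.card {f : Fin k → ℕ // (∀ i, f i ∈ (fun a => a + 1) '' A) ∧ ∑ i, f i = n + k ∧ True} := by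
    unfold rep1
    simp
  rw [e, h, D]
  apply congrArg Finset.card
  ext f
  simp [SA]

theorem rep2_eq (A : Set ℕ) (k m n : ℕ) (hn : n < 2 ^ m) :
    (k.factorial : ℤ) * rep2 ((fun a => a + 1) '' A) k (n + k)
      = ∑ σ : Equiv.Perm (Fin k), (D A σ m n : ℤ) := by
  classical
  have h := bridge A k (2 ^ m) n hn (fun f => Monotone f) (fun f => by
    constructor
    · intro hf i j hij
      have := hf hij
      simpa using this
    · intro hf i j hij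
      have := hf hij
      simpa using this)
  have h2 := mono_identity k (SA A m) n
  rw [rep2, h]
  refine Eq.trans ?_ (h2.trans ?_)
  · congr 2
    apply congrArg Finset.card
    ext f
    simp [SA]
  · refine Finset.sum_congr rfl fun σ _ => ?_
    rw [D]

theorem rep3_eq (A : Set ℕ) (k m n : ℕ) (hn : n < 2 ^ m) :
    (k.factorial : ℤ) * rep3 ((fun a => a + 1) '' A) k (n + k)
      = ∑ σ : Equiv.Perm (Fin k), (Equiv.Perm.sign σ : ℤ) * (D A σ m n : ℤ) := by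
  classical
  have h := bridge A k (2 ^ m) n hn (fun f => StrictMono f) (fun f => by
    constructor
    · intro hf i j hij
      have := hf hij
      simpa using this
    · intro hf i j hij
      have := hf hij
      simpa using this)
  have h2 := strict_identity k (SA A m) n
  rw [rep3, h]
  refine Eq.trans ?_ (h2.trans ?_)
  · congr 2
    apply congrArg Finset.card
    ext f
    simp [SA]
  · refine Finset.sum_congr rfl fun σ _ => ?_
    rw [D]

theorem incr_of_pos (A : Set ℕ) (k m n : ℕ) (hn : n + 1 < 2 ^ m)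
    (hpos : ∑ σ ∈ (univ : Finset (Equiv.Perm (Fin k))).erase 1, |Dd A σ m n| < Dd A (1 : Equiv.Perm (Fin k)) m n) :
    rep1 ((fun a => a + 1) '' A) k (n + k) < rep1 ((fun a => a + 1) '' A) k (n + k + 1) ∧
    rep2 ((fun a => a + 1) '' A) k (n + k) < rep2 ((fun a => a + 1) '' A) k (n + k + 1) ∧
    rep3 ((fun a => a + 1) '' A) k (n + k) < rep3 ((fun a => a + 1) '' A) k (n + k + 1) := by
  have hnk : n + k + 1 = (n + 1) + k := by ring
  rw [hnk]
  have hnn : (0:ℝ) ≤ ∑ σ ∈ (univ : Finset (Equiv.Perm (Fin k))).erase 1, |Dd A σ m n| :=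
    Finset.sum_nonneg fun _ _ => abs_nonneg _
  have hfac : (0:ℤ) < (k.factorial : ℤ) := by exact_mod_cast k.factorial_pos
  refine ⟨?_, ?_, ?_⟩
  · rw [rep1_eq A k m n (by omega), rep1_eq A k m (n + 1) hn]
    have : (0:ℝ) < Dd A (1 : Equiv.Perm (Fin k)) m n := lt_of_le_of_lt hnn hpos
    rw [Dd] at this
    have h2 : (D A (1 : Equiv.Perm (Fin k)) m n : ℝ) < D A (1 : Equiv.Perm (Fin k)) m (n + 1) := by
      linarith
    exact_mod_cast h2
  · have a1 := rep2_eq A k m n (by omega)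
    have a2 := rep2_eq A k m (n + 1) hn
    have key : (0:ℝ) < ∑ σ : Equiv.Perm (Fin k), Dd A σ m n := by
      rw [← Finset.add_sum_erase _ _ (Finset.mem_univ (1 : Equiv.Perm (Fin k)))]
      have : -∑ σ ∈ (univ : Finset (Equiv.Perm (Fin k))).erase 1, |Dd A σ m n|
          ≤ ∑ σ ∈ (univ : Finset (Equiv.Perm (Fin k))).erase 1, Dd A σ m n := by
        rw [← Finset.sum_neg_distrib]
        exact Finset.sum_le_sum fun σ _ => neg_abs_le _
      linarith
    have key2 : (0:ℤ) < (∑ σ : Equiv.Perm (Fin k), (D A σ m (n + 1) : ℤ))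
        - ∑ σ : Equiv.Perm (Fin k), (D A σ m n : ℤ) := by
      have : (0:ℝ) < (((∑ σ : Equiv.Perm (Fin k), (D A σ m (n + 1) : ℤ))
        - ∑ σ : Equiv.Perm (Fin k), (D A σ m n : ℤ) : ℤ) : ℝ) := by
        push_cast
        rw [← Finset.sum_sub_distrib]
        exact key
      exact_mod_cast this
    rw [← a1, ← a2, ← mul_sub] at key2
    have key3 := (mul_pos_iff_of_pos_left hfac).mp key2
    have : (rep2 ((fun a => a + 1) '' A) k (n + k) : ℤ)
        < rep2 ((fun a => a + 1) '' A) k (n + 1 + k) := by linarith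
    exact_mod_cast this
  · have a1 := rep3_eq A k m n (by omega)
    have a2 := rep3_eq A k m (n + 1) hn
    have key : (0:ℝ) < ∑ σ : Equiv.Perm (Fin k), ((Equiv.Perm.sign σ : ℤ) : ℝ) * Dd A σ m n := by
      rw [← Finset.add_sum_erase _ _ (Finset.mem_univ (1 : Equiv.Perm (Fin k)))]
      have : -∑ σ ∈ (univ : Finset (Equiv.Perm (Fin k))).erase 1, |Dd A σ m n|
          ≤ ∑ σ ∈ (univ : Finset (Equiv.Perm (Fin k))).erase 1,
            ((Equiv.Perm.sign σ : ℤ) : ℝ) * Dd A σ m n := by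
        rw [← Finset.sum_neg_distrib]
        refine Finset.sum_le_sum fun σ _ => ?_
        rcases Int.units_eq_one_or (Equiv.Perm.sign σ) with hs | hs
        · rw [hs]; simp only [Units.val_one, Int.cast_one, one_mul]; exact neg_abs_le _
        · rw [hs]; simp only [Units.val_neg, Units.val_one, Int.cast_neg, Int.cast_one, neg_mul,
            one_mul]
          exact neg_le_neg (le_abs_self _)
      simp only [Equiv.Perm.sign_one, Units.val_one, Int.cast_one, one_mul]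
      linarith
    have key2 : (0:ℤ) < (∑ σ : Equiv.Perm (Fin k), (Equiv.Perm.sign σ : ℤ) * (D A σ m (n + 1) : ℤ))
        - ∑ σ : Equiv.Perm (Fin k), (Equiv.Perm.sign σ : ℤ) * (D A σ m n : ℤ) := by
      have : (0:ℝ) < (((∑ σ : Equiv.Perm (Fin k), (Equiv.Perm.sign σ : ℤ) * (D A σ m (n + 1) : ℤ))
        - ∑ σ : Equiv.Perm (Fin k), (Equiv.Perm.sign σ : ℤ) * (D A σ m n : ℤ) : ℤ) : ℝ) := by
        push_cast
        rw [← Finset.sum_sub_distrib]
        refine lt_of_lt_of_eq key (Finset.sum_congr rfl fun σ _ => ?_)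
        rw [Dd]; ring
      exact_mod_cast this
    rw [← a1, ← a2, ← mul_sub] at key2
    have key3 := (mul_pos_iff_of_pos_left hfac).mp key2
    have : (rep3 ((fun a => a + 1) '' A) k (n + k) : ℤ)
        < rep3 ((fun a => a + 1) '' A) k (n + 1 + k) := by linarith
    exact_mod_cast this

theorem cnt_le {θ : ℝ} (h0 : 0 < θ) {A : Set ℕ} {C : ℝ} (hC : 0 < C)
    (h : ∀ m : ℕ, ((SA A m).card : ℝ) ≤ C * ((2 : ℝ) ^ m) ^ θ) (n : ℕ) (hn : 1 ≤ n) :
    (cnt ((fun a => a + 1) '' A) n : ℝ) ≤ C * 2 ^ θ * (n : ℝ) ^ θ := by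
  classical
  set m := Nat.log 2 n + 1 with hm
  have h1 : n < 2 ^ m := Nat.lt_pow_succ_log_self (by norm_num) n
  have h2 : 2 ^ m ≤ 2 * n := by
    rw [hm, pow_succ, mul_comm]
    exact Nat.mul_le_mul_left 2 (Nat.pow_log_le_self 2 (by omega))
  have h3 : cnt ((fun a => a + 1) '' A) n ≤ (SA A m).card := by
    unfold cnt
    rw [← Fintype.card_coe, ← Nat.card_eq_fintype_card]
    refine Nat.card_le_card_of_injective
      (fun x : {a : ℕ // a ∈ (fun a => a + 1) '' A ∧ a ≤ n} =>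
        (⟨x.1 - 1, ?_⟩ : {y // y ∈ SA A m})) ?_
    · obtain ⟨a, ha, hax⟩ := x.2.1
      have hax' : a + 1 = x.1 := hax
      rw [SA, Finset.mem_filter, Finset.mem_range, ← hax']
      have := x.2.2
      exact ⟨by omega, by simpa using ha⟩
    · rintro ⟨x, hx, hx2⟩ ⟨y, hy, hy2⟩ hxy
      simp only [Subtype.mk.injEq] at hxy ⊢
      obtain ⟨a, ha, hax⟩ := hx
      obtain ⟨b, hb, hby⟩ := hy
      simp only at hax hby
      omega
  have h4 : (cnt ((fun a => a + 1) '' A) n : ℝ) ≤ (SA A m).card := by exact_mod_cast h3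
  refine h4.trans ((h m).trans ?_)
  have h5 : ((2 : ℝ) ^ m) ^ θ ≤ (2 * (n:ℝ)) ^ θ := by
    refine Real.rpow_le_rpow (by positivity) ?_ h0.le
    exact_mod_cast h2
  rw [Real.mul_rpow (by norm_num) (by positivity)] at h5
  calc C * ((2 : ℝ) ^ m) ^ θ ≤ C * (2 ^ θ * (n:ℝ) ^ θ) := by gcongr
    _ = _ := by ring

theorem infinite_of_rep (A : Set ℕ) (k n0 : ℕ)
    (h : ∀ n ≥ n0, rep1 A k n < rep1 A k (n + 1)) : A.Infinite := by
  intro hfin
  obtain ⟨b, hb⟩ := hfin.bddAbove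
  have h1 := h (n0 + k * b) (by omega)
  have h2 : 0 < rep1 A k (n0 + k * b + 1) := by omega
  have h3 : Nonempty {f : Fin k → ℕ // (∀ i, f i ∈ A) ∧ ∑ i, f i = n0 + k * b + 1} := by
    by_contra hne
    rw [not_nonempty_iff] at hne
    rw [rep1, Nat.card_of_isEmpty] at h2
    exact lt_irrefl _ h2
  obtain ⟨f, hf, hs⟩ := h3
  have h4 : ∑ i, f i ≤ ∑ i : Fin k, b := Finset.sum_le_sum fun i _ => hb (hf i)
  simp at h4
  omega

theorem four_over_k (k : ℕ) (hk : 5 ≤ k) (ε : ℝ) (hε : 0 < ε) :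
    ∃ A : Set ℕ, A.Infinite ∧ (∀ a ∈ A, 1 ≤ a) ∧
      (∃ C : ℝ, ∀ n : ℕ, 1 ≤ n → (cnt A n : ℝ) ≤ C * (n : ℝ) ^ (4 / (k : ℝ) + ε)) ∧
      ∃ n0 : ℕ, ∀ n ≥ n0, rep1 A k n < rep1 A k (n + 1) ∧ rep2 A k n < rep2 A k (n + 1) ∧
        rep3 A k n < rep3 A k (n + 1) := by
  classical
  have hkR : (5:ℝ) ≤ k := by exact_mod_cast hk
  set θ : ℝ := min (4 / (k : ℝ) + ε) 1 with hθ
  have h4k : 4 / (k : ℝ) < 1 := by rw [div_lt_one (by linarith)]; linarith
  have hθlow : 4 / (k : ℝ) < θ := lt_min (by linarith) h4k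
  have h4k0 : 0 < 4 / (k : ℝ) := by positivity
  have h0 : 0 < θ := by linarith
  have h1 : θ ≤ 1 := min_le_right _ _
  have hkθ4 : 4 < (k : ℝ) * θ := by
    rw [div_lt_iff₀ (by linarith)] at hθlow
    linarith
  have hkθ : 2 ≤ ((k : ℝ) - 1) * θ := by nlinarith
  obtain ⟨A, C0, hC0, hA⟩ := set_choice h0 h1
  have hS : Small θ A C0 := by
    intro m z hz
    exact hA m z hz
  obtain ⟨m0, hm0⟩ := main_pos h0 h1 k (by omega) hkθ hkθ4 hC0 hS
  obtain ⟨C, hC, hcard⟩ := card_le h0 hC0 hS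
  have hinc : ∀ n ≥ 2 ^ m0 + k,
      rep1 ((fun a => a + 1) '' A) k n < rep1 ((fun a => a + 1) '' A) k (n + 1) ∧
      rep2 ((fun a => a + 1) '' A) k n < rep2 ((fun a => a + 1) '' A) k (n + 1) ∧
      rep3 ((fun a => a + 1) '' A) k n < rep3 ((fun a => a + 1) '' A) k (n + 1) := by
    intro n hn
    have hp0 : 0 < 2 ^ m0 := by positivity
    obtain ⟨l, rfl⟩ : ∃ l, n = l + k := ⟨n - k, by omega⟩
    set m := Nat.log 2 (l + 1) + 1 with hm
    have g1 : l + 1 < 2 ^ m := Nat.lt_pow_succ_log_self (by norm_num) _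
    have g2 : 2 ^ m ≤ 2 * (l + 1) := by
      rw [hm, pow_succ, mul_comm]
      exact Nat.mul_le_mul_left 2 (Nat.pow_log_le_self 2 (by omega))
    have g3 : m0 ≤ m := by
      have : 2 ^ m0 < 2 ^ m := by omega
      exact ((Nat.pow_lt_pow_iff_right (by norm_num)).mp this).le
    exact incr_of_pos A k m l g1 (hm0 m g3 l g1 g2)
  refine ⟨(fun a => a + 1) '' A, infinite_of_rep _ k _ (fun n hn => (hinc n hn).1), ?_, ?_,
    ⟨_, hinc⟩⟩
  · rintro _ ⟨a, -, rfl⟩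
    exact Nat.succ_le_succ (Nat.zero_le a)
  · refine ⟨C * 2 ^ θ, fun n hn => (cnt_le h0 hC hcard n hn).trans ?_⟩
    have : (n : ℝ) ^ θ ≤ (n : ℝ) ^ (4 / (k : ℝ) + ε) := by
      apply Real.rpow_le_rpow_of_exponent_le (by exact_mod_cast hn)
      exact min_le_left _ _
    gcongr

end Pool.Agent.Helper149.Thin
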