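import Pool.Agent.Helper149.Thin.Defs

/-!
Estimates for the coefficients `pc s n` of `(1 - z)^(-s)`.
(helper lemmas for MP_c06095_nt; proofs contributed by the team's lemma jobs)
-/

noncomputable section

namespace Pool.Agent.Helper149.Thin

open Finset

theorem pc_succ_sub (s : ℝ) (n : ℕ) : pc s (n + 1) - pc s n = pc (s - 1) (n + 1) := by
  induction n with
  | zero => simp [pc]
  | succ n ih =>
    have e1 : ∀ (t : ℝ) (m : ℕ), pc t (m + 1) = pc t m * ((t + m) / (m + 1)) := by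
      intro t m
      unfold pc; rw [Finset.prod_range_succ]
    have h1 : ((n : ℝ) + 1) ≠ 0 := by positivity
    have h2 : ((n : ℝ) + 1 + 1) ≠ 0 := by positivity
    have e2 := e1 s n
    have e3 := e1 s (n + 1)
    have e4 := e1 (s - 1) (n + 1)
    rw [e3, e4, ← ih, e2]
    push_cast
    field_simp
    ring

theorem pc_pos {s : ℝ} (hs : 0 < s) (n : ℕ) : 0 < pc s n := by
  unfold pc
  apply Finset.prod_pos
  intro j _
  positivity

theorem pc_succ_le {θ : ℝ} (h0 : 0 < θ) (h1 : θ ≤ 1) (n : ℕ) : pc θ (n + 1) ≤ pc θ n := by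
  have e1 : ∀ (t : ℝ) (m : ℕ), pc t (m + 1) = pc t m * ((t + m) / (m + 1)) := by
    intro t m
    unfold pc; rw [Finset.prod_range_succ]
  rw [e1]
  have hp := pc_pos h0 n
  have h2 : (θ + n) / ((n : ℝ) + 1) ≤ 1 := by
    rw [div_le_one (by positivity)]
    linarith
  calc pc θ n * ((θ + n) / ((n : ℝ) + 1)) ≤ pc θ n * 1 := by
        apply mul_le_mul_of_nonneg_left h2 hp.le
    _ = pc θ n := by ring

theorem pc_le_one {θ : ℝ} (h0 : 0 < θ) (h1 : θ ≤ 1) (n : ℕ) : pc θ n ≤ 1 := by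
  induction n with
  | zero => simp [pc]
  | succ n ih => exact (pc_succ_le h0 h1 n).trans ih

theorem sum_pc (s : ℝ) (n : ℕ) : ∑ a ∈ range (n + 1), pc s a = pc (s + 1) n := by
  induction n with
  | zero => simp [pc]
  | succ n ih =>
    rw [Finset.sum_range_succ, ih]
    have := pc_succ_sub (s + 1) n
    have e : s + 1 - 1 = s := by ring
    rw [e] at this
    linarith

theorem pc_eq (s : ℝ) (n : ℕ) : pc s n = (∏ j ∈ range n, (s + j)) / (n.factorial : ℝ) := by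
  unfold pc
  rw [Finset.prod_div_distrib]
  congr 1
  rw [← Finset.prod_range_add_one_eq_factorial]
  push_cast
  rfl

theorem pc_tendsto {s : ℝ} (hs : 0 < s) :
    Filter.Tendsto (fun n : ℕ => pc s n / ((n : ℝ) + 1) ^ (s - 1)) Filter.atTop
      (nhds (Real.Gamma s)⁻¹) := by
  have hG : 0 < Real.Gamma s := Real.Gamma_pos_of_pos hs
  have h1 := (Real.GammaSeq_tendsto_Gamma s).inv₀ hG.ne'
  have h2 : Filter.Tendsto (fun n : ℕ => (n : ℝ) / ((n : ℝ) + 1)) Filter.atTop (nhds 1) :=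
    tendsto_natCast_div_add_atTop (1 : ℝ)
  have h3 : Filter.Tendsto (fun n : ℕ => (n : ℝ) / ((n : ℝ) + s)) Filter.atTop (nhds 1) :=
    tendsto_natCast_div_add_atTop s
  have h4 : Filter.Tendsto (fun n : ℕ => ((n : ℝ) / ((n : ℝ) + 1)) ^ (s - 1)) Filter.atTop
      (nhds 1) := by
    have := h2.rpow_const (p := s - 1) (Or.inl one_ne_zero)
    simpa using this
  have h5 := (h1.mul h3).mul h4
  simp only [mul_one] at h5
  refine h5.congr' ?_
  filter_upwards [Filter.eventually_ge_atTop 1] with n hn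
  have hn' : (0:ℝ) < n := by exact_mod_cast hn
  have hp : 0 < ∏ j ∈ range n, (s + (j:ℝ)) := Finset.prod_pos (fun j _ => by positivity)
  have hf : (0:ℝ) < (n.factorial : ℝ) := by exact_mod_cast n.factorial_pos
  rw [pc_eq, Real.GammaSeq, Finset.prod_range_succ, Real.div_rpow hn'.le (by positivity)]
  have e1 : (n:ℝ) ^ s = (n:ℝ) ^ (s - 1) * n := by
    rw [← Real.rpow_add_one hn'.ne']
    ring_nf
  have hq : (0:ℝ) < (n:ℝ) ^ (s - 1) := Real.rpow_pos_of_pos hn' _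
  have hq2 : (0:ℝ) < ((n:ℝ) + 1) ^ (s - 1) := Real.rpow_pos_of_pos (by positivity) _
  rw [e1]
  have hsn : (0:ℝ) < s + n := by positivity
  have hsn' : (0:ℝ) < n + s := by positivity
  field_simp
  try ring

theorem pc_upper {s : ℝ} (hs : 0 < s) :
    ∃ C : ℝ, 0 < C ∧ ∀ n : ℕ, pc s n ≤ C * ((n : ℝ) + 1) ^ (s - 1) := by
  obtain ⟨C, hC⟩ := (pc_tendsto hs).bddAbove_range
  refine ⟨max C 1, by positivity, fun n => ?_⟩
  have h1 : pc s n / ((n : ℝ) + 1) ^ (s - 1) ≤ C := hC ⟨n, rfl⟩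
  have hq2 : (0:ℝ) < ((n:ℝ) + 1) ^ (s - 1) := Real.rpow_pos_of_pos (by positivity) _
  rw [← div_le_iff₀ hq2]
  exact h1.trans (le_max_left _ _)

theorem pc_lower {s : ℝ} (hs : 0 < s) :
    ∃ c : ℝ, 0 < c ∧ ∀ n : ℕ, c * ((n : ℝ) + 1) ^ (s - 1) ≤ pc s n := by
  have hG : 0 < Real.Gamma s := Real.Gamma_pos_of_pos hs
  have h0 := (pc_tendsto hs).inv₀ (inv_ne_zero hG.ne')
  obtain ⟨C, hC⟩ := h0.bddAbove_range
  refine ⟨(max C 1)⁻¹, by positivity, fun n => ?_⟩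
  have h1 : (pc s n / ((n : ℝ) + 1) ^ (s - 1))⁻¹ ≤ C := hC ⟨n, rfl⟩
  have hq2 : (0:ℝ) < ((n:ℝ) + 1) ^ (s - 1) := Real.rpow_pos_of_pos (by positivity) _
  have hp := pc_pos hs n
  rw [← le_div_iff₀ hq2]
  have h2 : (pc s n / ((n : ℝ) + 1) ^ (s - 1))⁻¹ ≤ max C 1 := h1.trans (le_max_left _ _)
  have h3 : 0 < pc s n / ((n : ℝ) + 1) ^ (s - 1) := by positivity
  calc (max C 1)⁻¹ ≤ ((pc s n / ((n : ℝ) + 1) ^ (s - 1))⁻¹)⁻¹ :=
        inv_anti₀ (by positivity) h2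
    _ = _ := inv_inv _

theorem pc_conv_pow_succ (s : ℝ) (n : ℕ) : ((n : ℝ) + 1) * pc s (n + 1) = (s + n) * pc s n := by
  unfold pc
  rw [prod_range_succ]
  have : (n : ℝ) + 1 ≠ 0 := by positivity
  field_simp

theorem pc_conv_pow_vand (s t : ℝ) (n : ℕ) :
    ∑ p ∈ antidiagonal n, pc s p.1 * pc t p.2 = pc (s + t) n := by
  induction n with
  | zero => simp [pc]
  | succ n ih =>
    have hne : (n : ℝ) + 1 ≠ 0 := by positivity
    apply mul_left_cancel₀ hne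
    rw [pc_conv_pow_succ, ← ih]
    have h1 : ∑ p ∈ antidiagonal (n + 1), (p.1 : ℝ) * (pc s p.1 * pc t p.2)
        = ∑ p ∈ antidiagonal n, (s + p.1) * (pc s p.1 * pc t p.2) := by
      rw [Finset.Nat.sum_antidiagonal_succ]
      simp only [Nat.cast_zero, zero_mul, zero_add]
      apply sum_congr rfl
      intro p _
      have := pc_conv_pow_succ s p.1
      push_cast
      calc ((p.1 : ℝ) + 1) * (pc s (p.1 + 1) * pc t p.2)
          = (((p.1 : ℝ) + 1) * pc s (p.1 + 1)) * pc t p.2 := by ring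
        _ = _ := by rw [this]; ring
    have h2 : ∑ p ∈ antidiagonal (n + 1), (p.2 : ℝ) * (pc s p.1 * pc t p.2)
        = ∑ p ∈ antidiagonal n, (t + p.2) * (pc s p.1 * pc t p.2) := by
      rw [Finset.Nat.sum_antidiagonal_succ']
      simp only [Nat.cast_zero, zero_mul, add_zero]
      first
      | rw [zero_add]
      | skip
      apply sum_congr rfl
      intro p _
      have := pc_conv_pow_succ t p.2
      push_cast
      calc ((p.2 : ℝ) + 1) * (pc s p.1 * pc t (p.2 + 1))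
          = pc s p.1 * (((p.2 : ℝ) + 1) * pc t (p.2 + 1)) := by ring
        _ = _ := by rw [this]; ring
    have h3 : ((n : ℝ) + 1) * ∑ p ∈ antidiagonal (n + 1), pc s p.1 * pc t p.2
        = ∑ p ∈ antidiagonal (n + 1), (p.1 : ℝ) * (pc s p.1 * pc t p.2)
          + ∑ p ∈ antidiagonal (n + 1), (p.2 : ℝ) * (pc s p.1 * pc t p.2) := by
      rw [mul_sum, ← sum_add_distrib]
      apply sum_congr rfl
      intro p hp
      rw [HasAntidiagonal.mem_antidiagonal] at hp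
      have : (p.1 : ℝ) + p.2 = n + 1 := by exact_mod_cast hp
      rw [← this]; ring
    rw [h3, h1, h2, ← sum_add_distrib, mul_sum]
    apply sum_congr rfl
    intro p hp
    rw [HasAntidiagonal.mem_antidiagonal] at hp
    have : (p.1 : ℝ) + p.2 = n := by exact_mod_cast hp
    rw [← this]; ring

theorem pc_conv_pow_ser (θ : ℝ) (k : ℕ) :
    (PowerSeries.mk (pc θ)) ^ k = PowerSeries.mk (pc (k * θ)) := by
  induction k with
  | zero =>
    ext n
    simp only [pow_zero, PowerSeries.coeff_one, PowerSeries.coeff_mk, Nat.cast_zero, zero_mul]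
    rcases n with _ | n
    · simp [pc]
    · rw [if_neg (Nat.succ_ne_zero n)]
      unfold pc
      rw [prod_range_succ']
      simp
  | succ k ih =>
    rw [pow_succ, ih]
    ext n
    rw [PowerSeries.coeff_mul]
    simp only [PowerSeries.coeff_mk]
    rw [pc_conv_pow_vand]
    push_cast
    ring_nf

theorem pc_conv_pow (θ : ℝ) (k N n : ℕ) (hn : n < N) :
    ∑ f ∈ (Fintype.piFinset fun _ : Fin k => range N) with ∑ i, f i = n, ∏ i, pc θ (f i)
      = pc (k * θ) n := by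
  have h := congrArg (PowerSeries.coeff n) (pc_conv_pow_ser θ k)
  rw [PowerSeries.coeff_mk] at h
  rw [← h]
  have h2 : (PowerSeries.mk (pc θ)) ^ k = ∏ _i : Fin k, PowerSeries.mk (pc θ) := by
    simp
  rw [h2, PowerSeries.coeff_prod]
  simp only [PowerSeries.coeff_mk]
  symm
  apply Finset.sum_bij (fun (l : Fin k →₀ ℕ) _ => (fun i => l i : Fin k → ℕ))
  · intro l hl
    rw [mem_finsuppAntidiag] at hl
    rw [mem_filter, Fintype.mem_piFinset]
    refine ⟨fun a => ?_, hl.1⟩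
    rw [mem_range]
    have : l a ≤ ∑ i, l i := Finset.single_le_sum (f := fun i => l i) (fun i _ => Nat.zero_le _) (mem_univ a)
    have h3 : ∑ i, l i = n := hl.1
    omega
  · intro l _ l' _ hll
    exact DFunLike.coe_injective hll
  · intro f hf
    rw [mem_filter] at hf
    refine ⟨Finsupp.equivFunOnFinite.symm f, ?_, ?_⟩
    · rw [mem_finsuppAntidiag]
      refine ⟨?_, by simp⟩
      simpa using hf.2
    · ext i; simp
  · intro l _
    rfl

theorem norm_sum_pc_le_abel {f : ℕ → ℝ} (hanti : ∀ n, f (n + 1) ≤ f n) (z : ℂ) (hz : ‖z‖ = 1)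
    (K m : ℕ) :
    ‖(1 - z) * (∑ a ∈ range m, (f (K + a) : ℂ) * z ^ (K + a)) +
      (f (K + m) : ℂ) * z ^ (K + m) - (f K : ℂ) * z ^ K‖ ≤ f K - f (K + m) := by
  induction m with
  | zero => simp
  | succ m ih =>
    rw [Finset.sum_range_succ]
    have h1 : (1 - z) * (∑ a ∈ range m, (f (K + a) : ℂ) * z ^ (K + a) +
        (f (K + m) : ℂ) * z ^ (K + m)) + (f (K + (m + 1)) : ℂ) * z ^ (K + (m + 1)) -
        (f K : ℂ) * z ^ K =
        ((1 - z) * (∑ a ∈ range m, (f (K + a) : ℂ) * z ^ (K + a)) +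
          (f (K + m) : ℂ) * z ^ (K + m) - (f K : ℂ) * z ^ K) -
        ((f (K + m) - f (K + m + 1) : ℝ) : ℂ) * z ^ (K + m + 1) := by
      rw [← add_assoc K m 1]
      push_cast
      ring
    rw [h1]
    refine (norm_sub_le _ _).trans ?_
    rw [norm_mul, norm_pow, hz, one_pow, mul_one, Complex.norm_real, Real.norm_eq_abs,
      abs_of_nonneg (by linarith [hanti (K + m)])]
    rw [← add_assoc K m 1]
    linarith

theorem sum_pc_le_aux {θ : ℝ} (h0 : 0 < θ)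
    (hsum : ∀ n : ℕ, ∑ a ∈ range (n + 1), pc θ a = pc (θ + 1) n)
    (hup : ∃ C : ℝ, 0 < C ∧ ∀ n : ℕ, pc (θ + 1) n ≤ C * ((n : ℝ) + 1) ^ (θ + 1 - 1)) :
    ∃ C : ℝ, 0 < C ∧ ∀ n : ℕ, 1 ≤ n → ∑ a ∈ range n, pc θ a ≤ C * (n : ℝ) ^ θ := by
  obtain ⟨C, hC, hup⟩ := hup
  refine ⟨C, hC, fun n hn => ?_⟩
  obtain ⟨m, rfl⟩ : ∃ m, n = m + 1 := ⟨n - 1, by omega⟩
  rw [hsum m]
  have h1 := hup m
  rw [add_sub_cancel_right] at h1
  push_cast
  exact h1

/-- exponential sum bound by Abel summation -/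
theorem norm_sum_pc_le_aux {θ : ℝ} (h0 : 0 < θ) (h1 : θ ≤ 1)
    (hpos : ∀ n, 0 < pc θ n) (hanti : ∀ n, pc θ (n + 1) ≤ pc θ n)
    (hup : ∃ C : ℝ, 0 < C ∧ ∀ n : ℕ, pc θ n ≤ C * ((n : ℝ) + 1) ^ (θ - 1))
    (hsum : ∃ C : ℝ, 0 < C ∧ ∀ n : ℕ, 1 ≤ n → ∑ a ∈ range n, pc θ a ≤ C * (n : ℝ) ^ θ) :
    ∃ C : ℝ, 0 < C ∧ ∀ (N : ℕ) (z : ℂ), ‖z‖ = 1 → z ≠ 1 →
      ‖∑ a ∈ range N, (pc θ a : ℂ) * z ^ a‖ ≤ C * ‖1 - z‖ ^ (-θ) := by
  obtain ⟨C₁, hC₁, hup⟩ := hup
  obtain ⟨C₂, hC₂, hsum⟩ := hsum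
  refine ⟨C₂ * 3 ^ θ + 2 * C₁, by positivity, fun N z hz hz1 => ?_⟩
  have hd0 : 0 < ‖1 - z‖ := norm_pos_iff.2 (sub_ne_zero.2 (Ne.symm hz1))
  have hd2 : ‖1 - z‖ ≤ 2 := by
    refine (norm_sub_le _ _).trans ?_
    rw [norm_one, hz]
    norm_num
  set d := ‖1 - z‖ with hd
  set K := ⌈1 / d⌉₊ with hK
  have hK1 : 1 / d ≤ K := Nat.le_ceil _
  have hK2 : (K : ℝ) < 1 / d + 1 := Nat.ceil_lt_add_one (by positivity)
  have hK0 : 1 ≤ K := Nat.one_le_iff_ne_zero.2 (by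
    have : 0 < K := Nat.ceil_pos.2 (by positivity)
    omega)
  have hK3 : (K : ℝ) ≤ 3 / d := by
    have h2 : 1 ≤ 2 / d := by
      rw [le_div_iff₀ hd0]
      linarith
    have h3 : 3 / d = 1 / d + 2 / d := by ring
    linarith
  have hterm : ∀ a, ‖(pc θ a : ℂ) * z ^ a‖ = pc θ a := by
    intro a
    rw [norm_mul, norm_pow, hz, one_pow, mul_one, Complex.norm_real, Real.norm_eq_abs,
      abs_of_pos (hpos a)]
  have hhead : ∀ M, M ≤ K → ‖∑ a ∈ range M, (pc θ a : ℂ) * z ^ a‖ ≤ C₂ * 3 ^ θ * d ^ (-θ) := by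
    intro M hM
    calc ‖∑ a ∈ range M, (pc θ a : ℂ) * z ^ a‖
        ≤ ∑ a ∈ range M, ‖(pc θ a : ℂ) * z ^ a‖ := norm_sum_le _ _
      _ = ∑ a ∈ range M, pc θ a := Finset.sum_congr rfl fun a _ => hterm a
      _ ≤ ∑ a ∈ range K, pc θ a :=
          Finset.sum_le_sum_of_subset_of_nonneg (Finset.range_mono hM)
            fun a _ _ => (hpos a).le
      _ ≤ C₂ * (K : ℝ) ^ θ := hsum K hK0
      _ ≤ C₂ * (3 / d) ^ θ := by
          refine mul_le_mul_of_nonneg_left ?_ hC₂.le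
          exact Real.rpow_le_rpow (Nat.cast_nonneg _) hK3 h0.le
      _ = C₂ * 3 ^ θ * d ^ (-θ) := by
          rw [Real.div_rpow (by norm_num) hd0.le, Real.rpow_neg hd0.le]
          ring
  have hdp : 0 < d ^ (-θ) := Real.rpow_pos_of_pos hd0 _
  rcases le_or_gt N K with hN | hN
  · refine (hhead N hN).trans ?_
    have : 0 ≤ 2 * C₁ * d ^ (-θ) := by positivity
    linarith
  · obtain ⟨m, rfl⟩ : ∃ m, N = K + m := ⟨N - K, by omega⟩
    rw [Finset.sum_range_add]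
    refine (norm_add_le _ _).trans ?_
    have habel := norm_sum_pc_le_abel hanti z hz K m
    set g := ∑ a ∈ range m, (pc θ (K + a) : ℂ) * z ^ (K + a) with hg
    have h2 : ‖(1 - z) * g‖ ≤ 2 * pc θ K := by
      have h3 : (1 - z) * g = ((1 - z) * g + (pc θ (K + m) : ℂ) * z ^ (K + m) -
          (pc θ K : ℂ) * z ^ K) - (pc θ (K + m) : ℂ) * z ^ (K + m) +
          (pc θ K : ℂ) * z ^ K := by ring
      rw [h3]
      refine (norm_add_le _ _).trans ?_
      have h4 := norm_sub_le ((1 - z) * g + (pc θ (K + m) : ℂ) * z ^ (K + m) -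
          (pc θ K : ℂ) * z ^ K) ((pc θ (K + m) : ℂ) * z ^ (K + m))
      rw [hterm] at h4
      rw [hterm]
      linarith
    rw [norm_mul, ← hd] at h2
    have h5 : ‖g‖ ≤ 2 * C₁ * d ^ (-θ) := by
      have h6 : pc θ K ≤ C₁ * (1 / d) ^ (θ - 1) := by
        refine (hup K).trans (mul_le_mul_of_nonneg_left ?_ hC₁.le)
        exact Real.rpow_le_rpow_of_nonpos (by positivity) (by linarith) (by linarith)
      have h7 : (1 / d) ^ (θ - 1) = d * d ^ (-θ) := by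
        rw [one_div, Real.inv_rpow hd0.le, ← Real.rpow_neg hd0.le]
        nth_rewrite 2 [← Real.rpow_one d]
        rw [← Real.rpow_add hd0]
        congr 1
        ring
      rw [h7] at h6
      have h8 : d * ‖g‖ ≤ d * (2 * C₁ * d ^ (-θ)) := by
        calc d * ‖g‖ ≤ 2 * pc θ K := h2
          _ ≤ 2 * (C₁ * (d * d ^ (-θ))) := by linarith
          _ = d * (2 * C₁ * d ^ (-θ)) := by ring
      exact le_of_mul_le_mul_left h8 hd0
    have h9 := hhead K le_rfl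
    linarith

theorem sum_pc_le {θ : ℝ} (h0 : 0 < θ) :
    ∃ C : ℝ, 0 < C ∧ ∀ n : ℕ, 1 ≤ n → ∑ a ∈ range n, pc θ a ≤ C * (n : ℝ) ^ θ :=
  sum_pc_le_aux h0 (sum_pc θ) (pc_upper (by linarith))

theorem norm_sum_pc_le {θ : ℝ} (h0 : 0 < θ) (h1 : θ ≤ 1) :
    ∃ C : ℝ, 0 < C ∧ ∀ (N : ℕ) (z : ℂ), ‖z‖ = 1 → z ≠ 1 →
      ‖∑ a ∈ range N, (pc θ a : ℂ) * z ^ a‖ ≤ C * ‖1 - z‖ ^ (-θ) :=
  norm_sum_pc_le_aux h0 h1 (pc_pos h0) (pc_succ_le h0 h1) (pc_upper h0) (sum_pc_le h0)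

end Pool.Agent.Helper149.Thin
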