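import Pool.Agent.Helper149.Thin.Defs

/-!
Power sums over the roots of unity.
(helper lemmas for MP_c06095_nt; proofs contributed by the team's lemma jobs)
-/

noncomputable section

namespace Pool.Agent.Helper149.Thin

open Finset

theorem norm_one_sub_zt_pow {M t : ℕ} (h0 : 0 < t) (hM : t < M) :
    ‖1 - (zt M) ^ t‖ = 2 * Real.sin (Real.pi * t / M) := by
  have hMpos : (0 : ℝ) < M := by exact_mod_cast (lt_trans h0 hM)
  have e1 : (zt M) ^ t = Complex.exp (Complex.I * ((2 * (Real.pi * t / M) : ℝ) : ℂ)) := by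
    rw [zt, ← Complex.exp_nat_mul]
    congr 1
    push_cast
    ring
  have hs : 0 ≤ Real.sin (Real.pi * t / M) := by
    apply Real.sin_nonneg_of_nonneg_of_le_pi
    · positivity
    · rw [div_le_iff₀ hMpos]
      have : (t : ℝ) ≤ M := by exact_mod_cast hM.le
      exact mul_le_mul_of_nonneg_left this Real.pi_pos.le
  rw [norm_sub_rev, e1, Complex.norm_exp_I_mul_ofReal_sub_one]
  rw [show (2 * (Real.pi * t / M)) / 2 = Real.pi * t / M by ring]
  rw [Real.norm_eq_abs, abs_of_nonneg (by positivity)]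

theorem norm_one_sub_zt_pow_ge {M t : ℕ} (h0 : 0 < t) (hM : t < M) :
    4 * (min (t : ℝ) (M - t)) / M ≤ ‖1 - (zt M) ^ t‖ := by
  have hMpos : (0 : ℝ) < M := by exact_mod_cast (lt_trans h0 hM)
  have htM : (t : ℝ) ≤ M := by exact_mod_cast hM.le
  rw [norm_one_sub_zt_pow h0 hM]
  have hpi := Real.pi_pos
  rcases le_total (t : ℝ) (M - t) with h | h
  · rw [min_eq_left h]
    have h2 : (0 : ℝ) ≤ Real.pi * t / M := by positivity
    have h3 : Real.pi * t / M ≤ Real.pi / 2 := by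
      rw [div_le_div_iff₀ hMpos (by norm_num)]
      nlinarith
    have h4 := Real.mul_le_sin h2 h3
    have h5 : 2 / Real.pi * (Real.pi * t / M) = 2 * t / M := by
      field_simp
    rw [h5] at h4
    have h6 : 4 * (t : ℝ) / M = 2 * (2 * t / M) := by ring
    rw [h6]
    linarith
  · rw [min_eq_right h]
    have h1 : (0 : ℝ) ≤ M - t := by linarith
    have h2 : (0 : ℝ) ≤ Real.pi * (M - t) / M := by positivity
    have h3 : Real.pi * (M - t) / M ≤ Real.pi / 2 := by
      rw [div_le_div_iff₀ hMpos (by norm_num)]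
      nlinarith
    have h4 := Real.mul_le_sin h2 h3
    have h5 : 2 / Real.pi * (Real.pi * (M - t) / M) = 2 * (M - t) / M := by
      field_simp
    rw [h5] at h4
    have h7 : Real.sin (Real.pi * t / M) = Real.sin (Real.pi * (M - t) / M) := by
      rw [← Real.sin_pi_sub]
      congr 1
      field_simp
    rw [h7]
    have h6 : 4 * ((M : ℝ) - t) / M = 2 * (2 * (M - t) / M) := by ring
    rw [h6]
    linarith

theorem term_le {b : ℝ} (hb : 0 ≤ b) {M t : ℕ} (h0 : 0 < t) (hM : t < M) :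
    ‖1 - (zt M) ^ t‖ ^ (1 - b) ≤
      (1 / (t : ℝ) + 1 / ((M - t : ℕ) : ℝ)) * (M * max 1 ((M : ℝ) ^ (b - 2))) := by
  have hMpos : (0 : ℝ) < M := by exact_mod_cast (lt_trans h0 hM)
  have htM : (t : ℝ) < M := by exact_mod_cast hM
  have ht0 : (0 : ℝ) < t := by exact_mod_cast h0
  have ht1 : (1 : ℝ) ≤ t := by exact_mod_cast h0
  have hMt1 : (1 : ℝ) ≤ (M : ℝ) - t := by
    have : t + 1 ≤ M := hM
    have : ((t + 1 : ℕ) : ℝ) ≤ M := by exact_mod_cast this
    push_cast at this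
    linarith
  have hcast : ((M - t : ℕ) : ℝ) = (M : ℝ) - t := by
    rw [Nat.cast_sub hM.le]
  rw [hcast]
  have hd : (0 : ℝ) < M - t := by linarith
  have hm1 : (1 : ℝ) ≤ max 1 ((M : ℝ) ^ (b - 2)) := le_max_left _ _
  rcases lt_or_ge b 1 with hb1 | hb1
  · have h2 : ‖1 - (zt M) ^ t‖ ≤ 2 := by
      rw [norm_one_sub_zt_pow h0 hM]
      have := Real.sin_le_one (Real.pi * t / M)
      linarith
    have h3 : ‖1 - (zt M) ^ t‖ ^ (1 - b) ≤ 2 := by
      calc ‖1 - (zt M) ^ t‖ ^ (1 - b) ≤ (2 : ℝ) ^ (1 - b) :=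
            Real.rpow_le_rpow (norm_nonneg _) h2 (by linarith)
        _ ≤ (2 : ℝ) ^ (1 : ℝ) := Real.rpow_le_rpow_of_exponent_le (by norm_num) (by linarith)
        _ = 2 := Real.rpow_one 2
    have h4 : 4 / (M : ℝ) ≤ 1 / (t : ℝ) + 1 / ((M : ℝ) - t) := by
      rw [div_add_div _ _ ht0.ne' hd.ne', div_le_div_iff₀ hMpos (by positivity)]
      nlinarith [sq_nonneg ((M : ℝ) - 2 * t)]
    have h5 : (4 : ℝ) / M * (M * 1) = 4 := by field_simp
    have h6 : (4 : ℝ) / M * (M * 1) ≤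
        (1 / (t : ℝ) + 1 / ((M : ℝ) - t)) * (M * max 1 ((M : ℝ) ^ (b - 2))) := by
      apply mul_le_mul h4 _ (by positivity) (by positivity)
      exact mul_le_mul_of_nonneg_left hm1 hMpos.le
    linarith
  · set t' : ℝ := min (t : ℝ) (M - t) with ht'
    have h1 : 1 ≤ t' := le_min ht1 hMt1
    have h2 : 4 * t' / M ≤ ‖1 - (zt M) ^ t‖ := norm_one_sub_zt_pow_ge h0 hM
    have ht'M : t' ≤ M := le_trans (min_le_left _ _) htM.le
    have hpos : 0 < t' / M := by positivity
    have h3 : t' / M ≤ ‖1 - (zt M) ^ t‖ := by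
      refine le_trans ?_ h2
      apply div_le_div_of_nonneg_right _ hMpos.le
      linarith
    have h4 : ‖1 - (zt M) ^ t‖ ^ (1 - b) ≤ (t' / M) ^ (1 - b) :=
      Real.rpow_le_rpow_of_nonpos hpos h3 (by linarith)
    have hp : (0 : ℝ) < M / t' := by positivity
    have h5 : (t' / M) ^ (1 - b) = (M / t') * (M / t') ^ (b - 2) := by
      have e : (t' / M : ℝ) = (M / t')⁻¹ := by rw [inv_div]
      rw [e, Real.inv_rpow hp.le, ← Real.rpow_neg hp.le]
      have : -(1 - b) = 1 + (b - 2) := by ring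
      rw [this, Real.rpow_add hp, Real.rpow_one]
    have hge1 : 1 ≤ M / t' := by
      rw [le_div_iff₀ (by linarith)]
      linarith
    have hleM : M / t' ≤ M := div_le_self hMpos.le h1
    have h6 : (M / t') ^ (b - 2) ≤ max 1 ((M : ℝ) ^ (b - 2)) := by
      rcases le_total b 2 with h | h
      · exact le_trans (Real.rpow_le_one_of_one_le_of_nonpos hge1 (by linarith)) (le_max_left _ _)
      · exact le_trans (Real.rpow_le_rpow hp.le hleM (by linarith)) (le_max_right _ _)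
    have h7 : 1 / t' ≤ 1 / (t : ℝ) + 1 / ((M : ℝ) - t) := by
      have p1 : 0 < 1 / (t : ℝ) := by positivity
      have p2 : 0 < 1 / ((M : ℝ) - t) := by positivity
      rcases le_total (t : ℝ) (M - t) with h | h
      · rw [ht', min_eq_left h]; linarith
      · rw [ht', min_eq_right h]; linarith
    calc ‖1 - (zt M) ^ t‖ ^ (1 - b) ≤ (M / t') * (M / t') ^ (b - 2) := by rw [← h5]; exact h4
      _ ≤ (M / t') * max 1 ((M : ℝ) ^ (b - 2)) := mul_le_mul_of_nonneg_left h6 hp.le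
      _ = (1 / t') * (M * max 1 ((M : ℝ) ^ (b - 2))) := by ring
      _ ≤ _ := mul_le_mul_of_nonneg_right h7 (by positivity)

theorem sum_inv_le {M : ℕ} (hM : 1 ≤ M) :
    ∑ t ∈ (range M).erase 0, (1 / (t : ℝ) + 1 / ((M - t : ℕ) : ℝ)) ≤ 2 * (1 + Real.log M) := by
  obtain ⟨m, rfl⟩ : ∃ m, M = m + 1 := ⟨M - 1, by omega⟩
  have e : (range (m + 1)).erase 0 = (range m).image (· + 1) := by
    ext x
    simp only [mem_erase, mem_range, mem_image]
    constructor
    · rintro ⟨h1, h2⟩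
      exact ⟨x - 1, by omega, by omega⟩
    · rintro ⟨y, h1, h2⟩
      omega
  rw [e, sum_image (by intro a _ b _ h; simpa using h), sum_add_distrib]
  have h1 : ∑ x ∈ range m, 1 / (((x + 1 : ℕ)) : ℝ) = (harmonic m : ℝ) := by
    simp [harmonic]
  have h2 : ∑ x ∈ range m, 1 / (((m + 1 - (x + 1) : ℕ)) : ℝ) = (harmonic m : ℝ) := by
    rw [← h1, ← sum_range_reflect]
    apply sum_congr rfl
    intro x hx
    rw [mem_range] at hx
    congr 2
    omega
  rw [h1, h2]
  have h3 := harmonic_le_one_add_log m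
  have h4 : Real.log m ≤ Real.log (m + 1 : ℕ) := by
    rcases Nat.eq_zero_or_pos m with rfl | hm
    · simp
    · apply Real.log_le_log (by exact_mod_cast hm)
      push_cast; linarith
  linarith

theorem sum_root_rpow {b : ℝ} (hb : 0 ≤ b) :
    ∃ C : ℝ, 0 < C ∧ ∀ M : ℕ, 1 ≤ M →
      ∑ t ∈ (range M).erase 0, ‖1 - (zt M) ^ t‖ ^ (1 - b)
        ≤ C * M * (1 + Real.log M) * max 1 ((M : ℝ) ^ (b - 2)) := by
  refine ⟨2, by norm_num, ?_⟩
  intro M hM
  have hMpos : (0 : ℝ) < M := by exact_mod_cast hM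
  have hm1 : (1 : ℝ) ≤ max 1 ((M : ℝ) ^ (b - 2)) := le_max_left _ _
  calc ∑ t ∈ (range M).erase 0, ‖1 - (zt M) ^ t‖ ^ (1 - b)
      ≤ ∑ t ∈ (range M).erase 0,
          (1 / (t : ℝ) + 1 / ((M - t : ℕ) : ℝ)) * (M * max 1 ((M : ℝ) ^ (b - 2))) := by
        apply sum_le_sum
        intro t ht
        rw [mem_erase, mem_range] at ht
        exact term_le hb (by omega) ht.2
    _ = (∑ t ∈ (range M).erase 0, (1 / (t : ℝ) + 1 / ((M - t : ℕ) : ℝ))) *
          (M * max 1 ((M : ℝ) ^ (b - 2))) := by rw [sum_mul]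
    _ ≤ (2 * (1 + Real.log M)) * (M * max 1 ((M : ℝ) ^ (b - 2))) :=
        mul_le_mul_of_nonneg_right (sum_inv_le hM) (by positivity)
    _ = 2 * M * (1 + Real.log M) * max 1 ((M : ℝ) ^ (b - 2)) := by ring

end Pool.Agent.Helper149.Thin
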