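import Pool.Agent.Helper149.Thin.L1

/-!
Choice of the set by the method of conditional expectations.
(helper lemmas for MP_c06095_nt; proofs contributed by the team's lemma jobs)
-/

noncomputable section

namespace Pool.Agent.Helper149.Thin

open Finset

theorem ec_key {x lam p : ℝ} (hx : |x| ≤ lam) (hl1 : lam ≤ 1) (hp0 : 0 ≤ p) (hp1 : p ≤ 1) :
    (1 - p) * Real.exp (-(p * x)) + p * Real.exp ((1 - p) * x) ≤ Real.exp (lam ^ 2 * p) := by
  have hl0 : 0 ≤ lam := (abs_nonneg x).trans hx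
  have e1 : (1 - p) * Real.exp (-(p * x)) + p * Real.exp ((1 - p) * x) =
      Real.exp (-(p * x)) * (1 + p * (Real.exp x - 1)) := by
    have e2 : Real.exp ((1 - p) * x) = Real.exp (-(p * x)) * Real.exp x := by
      rw [← Real.exp_add]
      congr 1
      ring
    rw [e2]
    ring
  rw [e1]
  have h1 : 1 + p * (Real.exp x - 1) ≤ Real.exp (p * (Real.exp x - 1)) := by
    have h := Real.add_one_le_exp (p * (Real.exp x - 1))
    linarith
  calc Real.exp (-(p * x)) * (1 + p * (Real.exp x - 1))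
      ≤ Real.exp (-(p * x)) * Real.exp (p * (Real.exp x - 1)) :=
        mul_le_mul_of_nonneg_left h1 (Real.exp_pos _).le
    _ = Real.exp (p * (Real.exp x - 1 - x)) := by
        rw [← Real.exp_add]
        congr 1
        ring
    _ ≤ Real.exp (lam ^ 2 * p) := by
        refine Real.exp_le_exp.2 ?_
        have h2 := (abs_le.1 (Real.abs_exp_sub_one_sub_id_le (hx.trans hl1))).2
        have h3 : x ^ 2 ≤ lam ^ 2 := by
          rw [← sq_abs x]
          exact pow_le_pow_left₀ (abs_nonneg _) hx 2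
        calc p * (Real.exp x - 1 - x) ≤ p * lam ^ 2 :=
              mul_le_mul_of_nonneg_left (h2.trans h3) hp0
          _ = lam ^ 2 * p := mul_comm _ _

theorem ec_pot {ι : Type*} (I : Finset ι) (p : ℕ → ℝ) (c : ι → ℕ → ℝ)
    (lam : ℝ) (hl0 : 0 < lam) (hl1 : lam ≤ 1) (S : Finset ℕ) :
    (∀ a ∈ S, 0 ≤ p a ∧ p a ≤ 1) → (∀ i ∈ I, ∀ a ∈ S, |c i a| ≤ 1) →
    ∃ U ⊆ S, ∑ i ∈ I,
      (Real.exp (lam * ∑ a ∈ S, ((if a ∈ U then (1 : ℝ) else 0) - p a) * c i a) +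
        Real.exp (-(lam * ∑ a ∈ S, ((if a ∈ U then (1 : ℝ) else 0) - p a) * c i a))) ≤
      2 * (I.card : ℝ) * Real.exp (lam ^ 2 * ∑ a ∈ S, p a) := by
  induction S using Finset.induction_on with
  | empty =>
    intro _ _
    refine ⟨∅, subset_rfl, ?_⟩
    simp only [sum_empty, mul_zero, neg_zero, Real.exp_zero, mul_one, sum_const, nsmul_eq_mul]
    linarith
  | insert a S ha ih =>
    intro hp hc
    obtain ⟨U, hU, hΦ⟩ := ih (fun b hb => hp b (mem_insert_of_mem hb))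
      (fun i hi b hb => hc i hi b (mem_insert_of_mem hb))
    obtain ⟨hp0, hp1⟩ := hp a (mem_insert_self _ _)
    have haU : a ∉ U := fun h => ha (hU h)
    have hX0 : ∀ i, ∑ b ∈ insert a S, ((if b ∈ U then (1 : ℝ) else 0) - p b) * c i b =
        -(p a * c i a) + ∑ b ∈ S, ((if b ∈ U then (1 : ℝ) else 0) - p b) * c i b := by
      intro i
      rw [sum_insert ha, if_neg haU]
      ring
    have hX1 : ∀ i, ∑ b ∈ insert a S,
        ((if b ∈ insert a U then (1 : ℝ) else 0) - p b) * c i b =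
        (1 - p a) * c i a + ∑ b ∈ S, ((if b ∈ U then (1 : ℝ) else 0) - p b) * c i b := by
      intro i
      rw [sum_insert ha, if_pos (mem_insert_self _ _)]
      congr 1
      refine sum_congr rfl fun b hb => ?_
      have hba : b ≠ a := fun h => ha (h ▸ hb)
      have h1 : (b ∈ insert a U) ↔ b ∈ U := by
        rw [mem_insert]
        exact or_iff_right hba
      simp only [h1]
    by_contra hcon
    push Not at hcon
    have h0 := hcon U (hU.trans (subset_insert _ _))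
    have h1 := hcon (insert a U) (insert_subset_insert _ hU)
    simp only [hX0] at h0
    simp only [hX1] at h1
    have hB : 2 * (I.card : ℝ) * Real.exp (lam ^ 2 * ∑ b ∈ insert a S, p b) =
        Real.exp (lam ^ 2 * p a) * (2 * (I.card : ℝ) * Real.exp (lam ^ 2 * ∑ b ∈ S, p b)) := by
      rw [sum_insert ha, mul_add, Real.exp_add]
      ring
    have havg : (1 - p a) * (∑ i ∈ I,
        (Real.exp (lam * (-(p a * c i a) +
          ∑ b ∈ S, ((if b ∈ U then (1 : ℝ) else 0) - p b) * c i b)) +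
        Real.exp (-(lam * (-(p a * c i a) +
          ∑ b ∈ S, ((if b ∈ U then (1 : ℝ) else 0) - p b) * c i b))))) +
        p a * (∑ i ∈ I,
        (Real.exp (lam * ((1 - p a) * c i a +
          ∑ b ∈ S, ((if b ∈ U then (1 : ℝ) else 0) - p b) * c i b)) +
        Real.exp (-(lam * ((1 - p a) * c i a +
          ∑ b ∈ S, ((if b ∈ U then (1 : ℝ) else 0) - p b) * c i b))))) ≤
        Real.exp (lam ^ 2 * p a) * ∑ i ∈ I,
      (Real.exp (lam * ∑ a ∈ S, ((if a ∈ U then (1 : ℝ) else 0) - p a) * c i a) +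
        Real.exp (-(lam * ∑ a ∈ S, ((if a ∈ U then (1 : ℝ) else 0) - p a) * c i a))) := by
      rw [mul_sum, mul_sum, mul_sum, ← sum_add_distrib]
      refine sum_le_sum fun i hi => ?_
      generalize ∑ b ∈ S, ((if b ∈ U then (1 : ℝ) else 0) - p b) * c i b = X
      have hx1 : |lam * c i a| ≤ lam := by
        rw [abs_mul, abs_of_pos hl0]
        exact mul_le_of_le_one_right hl0.le (hc i hi a (mem_insert_self _ _))
      have hx2 : |-(lam * c i a)| ≤ lam := by rw [abs_neg]; exact hx1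
      have k1 := ec_key hx1 hl1 hp0 hp1
      have k2 := ec_key hx2 hl1 hp0 hp1
      have e1 : Real.exp (lam * (-(p a * c i a) + X)) =
          Real.exp (lam * X) * Real.exp (-(p a * (lam * c i a))) := by
        rw [← Real.exp_add]
        congr 1
        ring
      have e2 : Real.exp (-(lam * (-(p a * c i a) + X))) =
          Real.exp (-(lam * X)) * Real.exp (-(p a * (-(lam * c i a)))) := by
        rw [← Real.exp_add]
        congr 1
        ring
      have e3 : Real.exp (lam * ((1 - p a) * c i a + X)) =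
          Real.exp (lam * X) * Real.exp ((1 - p a) * (lam * c i a)) := by
        rw [← Real.exp_add]
        congr 1
        ring
      have e4 : Real.exp (-(lam * ((1 - p a) * c i a + X))) =
          Real.exp (-(lam * X)) * Real.exp ((1 - p a) * (-(lam * c i a))) := by
        rw [← Real.exp_add]
        congr 1
        ring
      rw [e1, e2, e3, e4]
      have m1 := mul_le_mul_of_nonneg_left k1 (Real.exp_pos (lam * X)).le
      have m2 := mul_le_mul_of_nonneg_left k2 (Real.exp_pos (-(lam * X))).le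
      linarith
    rw [hB] at h0 h1
    have hfin := mul_le_mul_of_nonneg_left hΦ (Real.exp_pos (lam ^ 2 * p a)).le
    have hlt := havg.trans hfin
    generalize (∑ i ∈ I,
        (Real.exp (lam * (-(p a * c i a) +
          ∑ b ∈ S, ((if b ∈ U then (1 : ℝ) else 0) - p b) * c i b)) +
        Real.exp (-(lam * (-(p a * c i a) +
          ∑ b ∈ S, ((if b ∈ U then (1 : ℝ) else 0) - p b) * c i b))))) = A0 at h0 hlt
    generalize (∑ i ∈ I,
        (Real.exp (lam * ((1 - p a) * c i a +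
          ∑ b ∈ S, ((if b ∈ U then (1 : ℝ) else 0) - p b) * c i b)) +
        Real.exp (-(lam * ((1 - p a) * c i a +
          ∑ b ∈ S, ((if b ∈ U then (1 : ℝ) else 0) - p b) * c i b))))) = A1 at h1 hlt
    generalize Real.exp (lam ^ 2 * p a) * (2 * (I.card : ℝ) *
      Real.exp (lam ^ 2 * ∑ b ∈ S, p b)) = B at h0 h1 hlt
    rcases eq_or_lt_of_le hp0 with hpz | hpz
    · rw [← hpz] at hlt
      linarith
    · have m1 : (1 - p a) * B ≤ (1 - p a) * A0 :=
        mul_le_mul_of_nonneg_left h0.le (by linarith)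
      have m2 : p a * B < p a * A1 := mul_lt_mul_of_pos_left h1 hpz
      linarith

theorem exists_choice {ι : Type*} (I : Finset ι) (S : Finset ℕ) (p : ℕ → ℝ)
    (hp : ∀ a ∈ S, 0 ≤ p a ∧ p a ≤ 1) (c : ι → ℕ → ℝ) (hc : ∀ i ∈ I, ∀ a ∈ S, |c i a| ≤ 1)
    (lam T : ℝ) (hl0 : 0 < lam) (hl1 : lam ≤ 1)
    (hT : 2 * (I.card : ℝ) * Real.exp (lam ^ 2 * ∑ a ∈ S, p a - lam * T) < 1) :
    ∃ U ⊆ S, ∀ i ∈ I, |∑ a ∈ S, ((if a ∈ U then (1 : ℝ) else 0) - p a) * c i a| ≤ T := by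
  obtain ⟨U, hU, hΦ⟩ := ec_pot I p c lam hl0 hl1 S hp hc
  refine ⟨U, hU, fun i hi => ?_⟩
  by_contra hcon
  rw [not_le] at hcon
  have h1 : Real.exp (lam * T) <
      Real.exp (lam * |∑ a ∈ S, ((if a ∈ U then (1 : ℝ) else 0) - p a) * c i a|) :=
    Real.exp_lt_exp.2 (mul_lt_mul_of_pos_left hcon hl0)
  have h2 : Real.exp (lam * |∑ a ∈ S, ((if a ∈ U then (1 : ℝ) else 0) - p a) * c i a|) ≤
      Real.exp (lam * ∑ a ∈ S, ((if a ∈ U then (1 : ℝ) else 0) - p a) * c i a) +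
        Real.exp (-(lam * ∑ a ∈ S, ((if a ∈ U then (1 : ℝ) else 0) - p a) * c i a)) := by
    rcases abs_choice (∑ a ∈ S, ((if a ∈ U then (1 : ℝ) else 0) - p a) * c i a) with h | h
    · rw [h]
      exact le_add_of_nonneg_right (Real.exp_pos _).le
    · rw [h, mul_neg]
      exact le_add_of_nonneg_left (Real.exp_pos _).le
  have h3 := single_le_sum (f := fun i =>
      (Real.exp (lam * ∑ a ∈ S, ((if a ∈ U then (1 : ℝ) else 0) - p a) * c i a) +
        Real.exp (-(lam * ∑ a ∈ S, ((if a ∈ U then (1 : ℝ) else 0) - p a) * c i a))))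
      (fun i _ => (add_pos (Real.exp_pos _) (Real.exp_pos _)).le) hi
  have h4 : 2 * (I.card : ℝ) * Real.exp (lam ^ 2 * ∑ a ∈ S, p a) < Real.exp (lam * T) := by
    rw [Real.exp_sub, ← mul_div_assoc, div_lt_one (Real.exp_pos _)] at hT
    exact hT
  have h5 := h1.trans_le (h2.trans (h3.trans hΦ))
  exact lt_irrefl _ (h5.trans h4)

theorem bc_grid (L : ℕ) (hL : 0 < L) (z : ℂ) (hz : ‖z‖ = 1) : ∃ j < L, ∀ a : ℕ,
    ‖z ^ a - (Complex.exp (((2 * Real.pi * j / L : ℝ) : ℂ) * Complex.I)) ^ a‖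
      ≤ a * (2 * Real.pi / L) := by
  have hpi := Real.pi_pos
  have hLr : (0 : ℝ) < L := by exact_mod_cast hL
  obtain ⟨φ, hφ0, hφ1, hφ⟩ : ∃ φ : ℝ, 0 ≤ φ ∧ φ < 2 * Real.pi ∧ z = Complex.exp (φ * Complex.I) := by
    have h1 := Complex.norm_mul_exp_arg_mul_I z
    rw [hz, Complex.ofReal_one, one_mul] at h1
    have ha1 := Complex.neg_pi_lt_arg z
    have ha2 := Complex.arg_le_pi z
    by_cases h : 0 ≤ Complex.arg z
    · exact ⟨Complex.arg z, h, by linarith, h1.symm⟩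
    · refine ⟨Complex.arg z + 2 * Real.pi, by linarith, by linarith, ?_⟩
      rw [Complex.ofReal_add, add_mul, Complex.exp_add, h1]
      have : ((2 * Real.pi : ℝ) : ℂ) * Complex.I = 2 * Real.pi * Complex.I := by push_cast; ring
      rw [this, Complex.exp_two_pi_mul_I, mul_one]
  have hq0 : 0 ≤ φ * L / (2 * Real.pi) := by positivity
  have hj1 := Nat.floor_le hq0
  have hj2 := Nat.lt_floor_add_one (φ * L / (2 * Real.pi))
  set j := ⌊φ * L / (2 * Real.pi)⌋₊ with hj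
  have hlt : φ * L / (2 * Real.pi) < L := by
    rw [div_lt_iff₀ (by positivity)]
    nlinarith
  refine ⟨j, ?_, ?_⟩
  · have : (j : ℝ) < L := lt_of_le_of_lt hj1 hlt
    exact_mod_cast this
  · intro a
    have hd0 : 0 ≤ φ - 2 * Real.pi * j / L := by
      rw [le_div_iff₀ (by positivity)] at hj1
      rw [sub_nonneg, div_le_iff₀ hLr]
      linarith
    have hd1 : φ - 2 * Real.pi * j / L ≤ 2 * Real.pi / L := by
      rw [div_lt_iff₀ (by positivity)] at hj2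
      rw [sub_le_iff_le_add, ← add_div, le_div_iff₀ hLr]
      linarith
    have h3 : z ^ a = Complex.exp (((a * (2 * Real.pi * j / L) : ℝ) : ℂ) * Complex.I) *
        Complex.exp (Complex.I * ((a * (φ - 2 * Real.pi * j / L) : ℝ) : ℂ)) := by
      rw [hφ, ← Complex.exp_nat_mul, ← Complex.exp_add]
      congr 1
      push_cast
      ring
    have h4 : (Complex.exp (((2 * Real.pi * j / L : ℝ) : ℂ) * Complex.I)) ^ a =
        Complex.exp (((a * (2 * Real.pi * j / L) : ℝ) : ℂ) * Complex.I) := by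
      rw [← Complex.exp_nat_mul]
      congr 1
      push_cast
      ring
    rw [h3, h4, ← mul_sub_one, norm_mul, Complex.norm_exp_ofReal_mul_I, one_mul]
    refine (Real.norm_exp_I_mul_ofReal_sub_one_le).trans ?_
    rw [Real.norm_eq_abs, abs_of_nonneg (by positivity)]
    gcongr

theorem block_choice_aux {θ : ℝ} (h0 : 0 < θ) (h1 : θ ≤ 1)
    (hpos : ∀ n, 0 < pc θ n) (hle : ∀ n, pc θ n ≤ 1)
    (hsum : ∃ C : ℝ, 0 < C ∧ ∀ n : ℕ, 1 ≤ n → ∑ a ∈ range n, pc θ a ≤ C * (n : ℝ) ^ θ)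
    (hch : ∀ (I : Finset (ℕ × Bool)) (S : Finset ℕ) (p : ℕ → ℝ)
      (_ : ∀ a ∈ S, 0 ≤ p a ∧ p a ≤ 1) (c : (ℕ × Bool) → ℕ → ℝ)
      (_ : ∀ i ∈ I, ∀ a ∈ S, |c i a| ≤ 1)
      (lam T : ℝ) (_ : 0 < lam) (_ : lam ≤ 1)
      (_ : 2 * (I.card : ℝ) * Real.exp (lam ^ 2 * ∑ a ∈ S, p a - lam * T) < 1),
      ∃ U ⊆ S, ∀ i ∈ I, |∑ a ∈ S, ((if a ∈ U then (1 : ℝ) else 0) - p a) * c i a| ≤ T) :
    ∃ C : ℝ, 0 < C ∧ ∀ m : ℕ, ∃ U ⊆ Ico (2 ^ m) (2 ^ (m + 1)), ∀ z : ℂ, ‖z‖ = 1 →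
      ‖∑ a ∈ Ico (2 ^ m) (2 ^ (m + 1)),
          (((if a ∈ U then (1 : ℝ) else 0) - pc θ a : ℝ) : ℂ) * z ^ a‖
        ≤ C * ((m : ℝ) + 1) * ((2 : ℝ) ^ m) ^ (θ / 2) := by
  obtain ⟨C0, hC0, hsum⟩ := hsum
  refine ⟨2 * (2 * C0 + 10) + 2, by positivity, ?_⟩
  intro m
  set x : ℝ := (2 : ℝ) ^ m with hx
  have hx1 : 1 ≤ x := one_le_pow₀ (by norm_num)
  have hx0 : 0 < x := by linarith
  have hm1 : (1 : ℝ) ≤ (m : ℝ) + 1 := by
    have : (0 : ℝ) ≤ m := Nat.cast_nonneg m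
    linarith
  set L : ℕ := 8 ^ (m + 1) with hL
  have hLpos : 0 < L := by positivity
  let ζ : ℕ → ℂ := fun j => Complex.exp (((2 * Real.pi * j / L : ℝ) : ℂ) * Complex.I)
  have hζ : ∀ j, ‖ζ j‖ = 1 := fun j => Complex.norm_exp_ofReal_mul_I _
  let c : (ℕ × Bool) → ℕ → ℝ := fun i a => if i.2 then (ζ i.1 ^ a).re else (ζ i.1 ^ a).im
  have hc : ∀ i a, |c i a| ≤ 1 := by
    intro i a
    have hn : ‖ζ i.1 ^ a‖ = 1 := by rw [norm_pow, hζ, one_pow]
    show |if i.2 then (ζ i.1 ^ a).re else (ζ i.1 ^ a).im| ≤ 1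
    split_ifs
    · exact (Complex.abs_re_le_norm _).trans hn.le
    · exact (Complex.abs_im_le_norm _).trans hn.le
  set S : Finset ℕ := Ico (2 ^ m) (2 ^ (m + 1)) with hS
  set y : ℝ := x ^ (θ / 2) with hy
  have hy1 : 1 ≤ y := Real.one_le_rpow hx1 (by linarith)
  have hy0 : 0 < y := by linarith
  have hyy : y * y = x ^ θ := by
    rw [hy, ← Real.rpow_add hx0]
    congr 1
    ring
  have hsumS : ∑ a ∈ S, pc θ a ≤ 2 * C0 * (y * y) := by
    have h2 : ∑ a ∈ S, pc θ a ≤ ∑ a ∈ range (2 ^ (m + 1)), pc θ a := by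
      apply Finset.sum_le_sum_of_subset_of_nonneg
      · intro a ha
        rw [hS, Finset.mem_Ico] at ha
        exact Finset.mem_range.2 ha.2
      · intro a _ _
        exact (hpos a).le
    have h3 := hsum (2 ^ (m + 1)) Nat.one_le_two_pow
    have h4 : (((2 ^ (m + 1) : ℕ) : ℝ)) ^ θ ≤ 2 * x ^ θ := by
      have : (((2 ^ (m + 1) : ℕ) : ℝ)) = 2 * x := by rw [hx]; push_cast; ring
      rw [this, Real.mul_rpow (by norm_num) hx0.le]
      have h5 : (2 : ℝ) ^ θ ≤ 2 ^ (1 : ℝ) := Real.rpow_le_rpow_of_exponent_le (by norm_num) h1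
      rw [Real.rpow_one] at h5
      have h6 : 0 ≤ x ^ θ := by positivity
      nlinarith
    rw [hyy]
    calc _ ≤ _ := h2
      _ ≤ _ := h3
      _ ≤ C0 * (2 * x ^ θ) := by gcongr
      _ = _ := by ring
  have hcond : 2 * (((range L) ×ˢ (Finset.univ : Finset Bool)).card : ℝ) *
      Real.exp (y⁻¹ ^ 2 * ∑ a ∈ S, pc θ a - y⁻¹ * ((2 * C0 + 10) * ((m : ℝ) + 1) * y)) < 1 := by
    have h2 : y⁻¹ ^ 2 * ∑ a ∈ S, pc θ a ≤ 2 * C0 := by
      calc y⁻¹ ^ 2 * ∑ a ∈ S, pc θ a ≤ y⁻¹ ^ 2 * (2 * C0 * (y * y)) := by gcongr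
        _ = 2 * C0 := by field_simp
    have h3 : y⁻¹ * ((2 * C0 + 10) * ((m : ℝ) + 1) * y) = (2 * C0 + 10) * ((m : ℝ) + 1) := by
      field_simp
    have h4 : y⁻¹ ^ 2 * ∑ a ∈ S, pc θ a - y⁻¹ * ((2 * C0 + 10) * ((m : ℝ) + 1) * y)
        ≤ ((m + 1 : ℕ) : ℝ) * (-10) := by
      rw [h3]
      push_cast
      nlinarith
    have h5 : Real.exp (y⁻¹ ^ 2 * ∑ a ∈ S, pc θ a - y⁻¹ * ((2 * C0 + 10) * ((m : ℝ) + 1) * y))
        ≤ Real.exp (-10) ^ (m + 1) := by
      rw [← Real.exp_nat_mul]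
      exact Real.exp_le_exp.2 h4
    have h6 : Real.exp (-10) < 1 / 32 := by
      rw [Real.exp_neg]
      have h7 : (2 : ℝ) ≤ Real.exp 1 := by
        have := Real.add_one_le_exp (1 : ℝ)
        linarith
      have h8 : Real.exp 10 = Real.exp 1 ^ 10 := by
        rw [← Real.exp_nat_mul]
        norm_num
      have h9 : (2 : ℝ) ^ 10 ≤ Real.exp 1 ^ 10 := by gcongr
      rw [h8, inv_eq_one_div]
      apply one_div_lt_one_div_of_lt (by norm_num)
      norm_num at h9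
      linarith
    have hcard : (((range L) ×ˢ (Finset.univ : Finset Bool)).card : ℝ) = 2 * 8 ^ (m + 1) := by
      rw [Finset.card_product]
      simp [hL]
      ring
    rw [hcard]
    have h10 : (2 : ℝ) * (2 * 8 ^ (m + 1)) ≤ 32 ^ (m + 1) := by
      have h11 : (32 : ℝ) ^ (m + 1) = 4 ^ (m + 1) * 8 ^ (m + 1) := by
        rw [← mul_pow]; norm_num
      have h12 : (4 : ℝ) ≤ 4 ^ (m + 1) := by
        have := pow_le_pow_right₀ (a := (4 : ℝ)) (by norm_num) (show 1 ≤ m + 1 by omega)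
        rwa [pow_one] at this
      rw [h11]
      have h13 : (0 : ℝ) < 8 ^ (m + 1) := by positivity
      nlinarith
    calc _ ≤ (32 : ℝ) ^ (m + 1) * Real.exp (-10) ^ (m + 1) := by
          apply mul_le_mul h10 h5 (Real.exp_pos _).le (by positivity)
      _ = (32 * Real.exp (-10)) ^ (m + 1) := by rw [mul_pow]
      _ < 1 := by
          apply pow_lt_one₀ (by positivity)
          · linarith
          · omega
  obtain ⟨U, hU, hUb⟩ := hch ((range L) ×ˢ (Finset.univ : Finset Bool)) S (pc θ)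
    (fun a _ => ⟨(hpos a).le, hle a⟩) c (fun i _ a _ => hc i a) y⁻¹
    ((2 * C0 + 10) * ((m : ℝ) + 1) * y) (inv_pos.2 hy0) (inv_le_one_of_one_le₀ hy1) hcond
  refine ⟨U, hU, ?_⟩
  intro z hz
  obtain ⟨j, hj, hzj⟩ := bc_grid L hLpos z hz
  set D : ℕ → ℝ := fun a => (if a ∈ U then (1 : ℝ) else 0) - pc θ a with hD
  have hD1 : ∀ a, |D a| ≤ 1 := by
    intro a
    have e1 := hpos a
    have e2 := hle a
    show |(if a ∈ U then (1 : ℝ) else 0) - pc θ a| ≤ 1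
    rw [abs_le]
    split_ifs <;> constructor <;> linarith
  have hg : ‖∑ a ∈ S, (D a : ℂ) * ζ j ^ a‖ ≤ 2 * ((2 * C0 + 10) * ((m : ℝ) + 1) * y) := by
    have hre : (∑ a ∈ S, (D a : ℂ) * ζ j ^ a).re = ∑ a ∈ S, D a * c (j, true) a := by
      rw [Complex.re_sum]
      apply Finset.sum_congr rfl
      intro a _
      rw [Complex.re_ofReal_mul]
      rfl
    have him : (∑ a ∈ S, (D a : ℂ) * ζ j ^ a).im = ∑ a ∈ S, D a * c (j, false) a := by
      rw [Complex.im_sum]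
      apply Finset.sum_congr rfl
      intro a _
      rw [Complex.im_ofReal_mul]
      rfl
    have g1 := hUb (j, true) (by simp [hj])
    have g2 := hUb (j, false) (by simp [hj])
    have g3 := Complex.norm_le_abs_re_add_abs_im (∑ a ∈ S, (D a : ℂ) * ζ j ^ a)
    rw [hre, him] at g3
    have g1' : |∑ a ∈ S, D a * c (j, true) a| ≤ (2 * C0 + 10) * ((m : ℝ) + 1) * y := g1
    have g2' : |∑ a ∈ S, D a * c (j, false) a| ≤ (2 * C0 + 10) * ((m : ℝ) + 1) * y := g2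
    linarith
  have hdiff : ‖∑ a ∈ S, (D a : ℂ) * (z ^ a - ζ j ^ a)‖ ≤ 2 := by
    have hcardS : (S.card : ℝ) = x := by
      rw [hS, Nat.card_Ico, hx]
      have : 2 ^ (m + 1) - 2 ^ m = 2 ^ m := by
        rw [pow_succ]; omega
      rw [this]
      push_cast
      rfl
    have hpi4 := Real.pi_lt_four
    have hpi0 := Real.pi_pos
    have hterm : ∀ a ∈ S, ‖(D a : ℂ) * (z ^ a - ζ j ^ a)‖ ≤ 2 / x := by
      intro a ha
      rw [hS, Finset.mem_Ico] at ha
      rw [norm_mul, Complex.norm_real, Real.norm_eq_abs]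
      have e1 := hzj a
      have e2 : (a : ℝ) ≤ 2 * x := by
        have : (a : ℝ) ≤ ((2 ^ (m + 1) : ℕ) : ℝ) := by exact_mod_cast ha.2.le
        rw [hx]
        push_cast at this
        rw [pow_succ] at this
        linarith
      have e3 : (L : ℝ) = 8 * (x * x * x) := by
        rw [hL, hx]
        push_cast
        rw [pow_succ, ← mul_pow, ← mul_pow]
        norm_num
        ring
      have e4 : (a : ℝ) * (2 * Real.pi / L) ≤ 2 / x := by
        rw [e3]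
        calc (a : ℝ) * (2 * Real.pi / (8 * (x * x * x)))
            ≤ (2 * x) * (2 * 4 / (8 * (x * x * x))) := by gcongr
          _ = (2 / x) * (1 / x) := by
              field_simp
              norm_num
          _ ≤ (2 / x) * 1 := by
              gcongr
              rw [div_le_one hx0]
              exact hx1
          _ = _ := by ring
      calc |D a| * ‖z ^ a - ζ j ^ a‖ ≤ 1 * (a * (2 * Real.pi / L)) :=
            mul_le_mul (hD1 a) e1 (norm_nonneg _) (by norm_num)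
        _ ≤ 2 / x := by rw [one_mul]; exact e4
    calc ‖∑ a ∈ S, (D a : ℂ) * (z ^ a - ζ j ^ a)‖ ≤ ∑ a ∈ S, ‖(D a : ℂ) * (z ^ a - ζ j ^ a)‖ :=
          norm_sum_le _ _
      _ ≤ ∑ _a ∈ S, 2 / x := Finset.sum_le_sum hterm
      _ = 2 := by
          rw [Finset.sum_const, nsmul_eq_mul, hcardS]
          field_simp
  have hsplit : ∑ a ∈ S, (D a : ℂ) * z ^ a =
      ∑ a ∈ S, (D a : ℂ) * ζ j ^ a + ∑ a ∈ S, (D a : ℂ) * (z ^ a - ζ j ^ a) := by
    rw [← Finset.sum_add_distrib]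
    apply Finset.sum_congr rfl
    intro a _
    ring
  show ‖∑ a ∈ S, (D a : ℂ) * z ^ a‖ ≤ _
  rw [hsplit]
  refine (norm_add_le _ _).trans ?_
  have hmy : 1 ≤ ((m : ℝ) + 1) * y := by nlinarith
  nlinarith


open Classical in
theorem set_choice_aux {θ : ℝ} (h0 : 0 < θ) (h1 : θ ≤ 1)
    (hblock : ∃ C : ℝ, 0 < C ∧ ∀ m : ℕ, ∃ U ⊆ Ico (2 ^ m) (2 ^ (m + 1)), ∀ z : ℂ, ‖z‖ = 1 →
      ‖∑ a ∈ Ico (2 ^ m) (2 ^ (m + 1)),
          (((if a ∈ U then (1 : ℝ) else 0) - pc θ a : ℝ) : ℂ) * z ^ a‖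
        ≤ C * ((m : ℝ) + 1) * ((2 : ℝ) ^ m) ^ (θ / 2)) :
    ∃ (A : Set ℕ) (C : ℝ), 0 < C ∧ ∀ (m : ℕ) (z : ℂ), ‖z‖ = 1 →
      ‖∑ a ∈ range (2 ^ m), (((if a ∈ A then (1 : ℝ) else 0) - pc θ a : ℝ) : ℂ) * z ^ a‖
        ≤ C * ((m : ℝ) + 1) ^ 2 * ((2 : ℝ) ^ m) ^ (θ / 2) := by
  obtain ⟨C, hC, hb⟩ := hblock
  choose U hUs hUb using hb
  have hA : ∀ m a, a ∈ Ico (2 ^ m) (2 ^ (m + 1)) → ((∃ j, a ∈ U j) ↔ a ∈ U m) := by
    intro m a ha
    constructor
    · rintro ⟨j, hj⟩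
      have h2 := Finset.mem_Ico.mp (hUs j hj)
      have h3 := Finset.mem_Ico.mp ha
      have h4 : m < j + 1 := (Nat.pow_lt_pow_iff_right (by norm_num)).mp (lt_of_le_of_lt h3.1 h2.2)
      have h5 : j < m + 1 := (Nat.pow_lt_pow_iff_right (by norm_num)).mp (lt_of_le_of_lt h2.1 h3.2)
      have h6 : j = m := by omega
      rw [← h6]; exact hj
    · intro h; exact ⟨m, h⟩
  have hA0 : ¬ ∃ j, (0 : ℕ) ∈ U j := by
    rintro ⟨j, hj⟩
    have h2 := (Finset.mem_Ico.mp (hUs j hj)).1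
    have h3 : 0 < 2 ^ j := by positivity
    omega
  refine ⟨{a | ∃ j, a ∈ U j}, 1 + C, by linarith, ?_⟩
  intro m z hz
  induction m with
  | zero =>
    have e : ‖∑ a ∈ range (2 ^ 0), (((if a ∈ {a | ∃ j, a ∈ U j} then (1 : ℝ) else 0) - pc θ a : ℝ)
        : ℂ) * z ^ a‖ = 1 := by
      rw [pow_zero, Finset.sum_range_one, if_neg (show (0 : ℕ) ∉ {a | ∃ j, a ∈ U j} from hA0)]
      simp [pc]
    rw [e]
    simp
    linarith
  | succ m ih =>
    have e : ∑ a ∈ range (2 ^ (m + 1)), (((if a ∈ {a | ∃ j, a ∈ U j} then (1 : ℝ) else 0)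
          - pc θ a : ℝ) : ℂ) * z ^ a
        = ∑ a ∈ range (2 ^ m), (((if a ∈ {a | ∃ j, a ∈ U j} then (1 : ℝ) else 0)
          - pc θ a : ℝ) : ℂ) * z ^ a
          + ∑ a ∈ Ico (2 ^ m) (2 ^ (m + 1)),
          (((if a ∈ U m then (1 : ℝ) else 0) - pc θ a : ℝ) : ℂ) * z ^ a := by
      rw [← Finset.sum_range_add_sum_Ico _ (Nat.pow_le_pow_right (by norm_num) (Nat.le_succ m))]
      congr 1
      refine Finset.sum_congr rfl ?_
      intro a ha
      have h2 := hA m a ha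
      by_cases h3 : a ∈ U m
      · rw [if_pos h3, if_pos (show a ∈ {a | ∃ j, a ∈ U j} from h2.2 h3)]
      · rw [if_neg h3, if_neg (show a ∉ {a | ∃ j, a ∈ U j} from fun h => h3 (h2.1 h))]
    rw [e]
    have hP : (0 : ℝ) < ((2 : ℝ) ^ m) ^ (θ / 2) := by positivity
    have hPle : ((2 : ℝ) ^ m) ^ (θ / 2) ≤ ((2 : ℝ) ^ (m + 1)) ^ (θ / 2) := by
      refine Real.rpow_le_rpow (by positivity) ?_ (by linarith)
      exact pow_le_pow_right₀ (by norm_num) (Nat.le_succ m)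
    have hm0 : (0 : ℝ) ≤ (m : ℝ) := Nat.cast_nonneg m
    calc ‖∑ a ∈ range (2 ^ m), (((if a ∈ {a | ∃ j, a ∈ U j} then (1 : ℝ) else 0)
          - pc θ a : ℝ) : ℂ) * z ^ a
          + ∑ a ∈ Ico (2 ^ m) (2 ^ (m + 1)),
          (((if a ∈ U m then (1 : ℝ) else 0) - pc θ a : ℝ) : ℂ) * z ^ a‖
        ≤ (1 + C) * ((m : ℝ) + 1) ^ 2 * ((2 : ℝ) ^ m) ^ (θ / 2)
          + C * ((m : ℝ) + 1) * ((2 : ℝ) ^ m) ^ (θ / 2) :=
          le_trans (norm_add_le _ _) (add_le_add ih (hUb m z hz))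
      _ = ((1 + C) * ((m : ℝ) + 1) ^ 2 + C * ((m : ℝ) + 1)) * ((2 : ℝ) ^ m) ^ (θ / 2) := by ring
      _ ≤ ((1 + C) * (((m + 1 : ℕ) : ℝ) + 1) ^ 2) * ((2 : ℝ) ^ m) ^ (θ / 2) := by
          refine mul_le_mul_of_nonneg_right ?_ hP.le
          push_cast
          nlinarith [mul_nonneg hC.le hm0]
      _ ≤ ((1 + C) * (((m + 1 : ℕ) : ℝ) + 1) ^ 2) * ((2 : ℝ) ^ (m + 1)) ^ (θ / 2) :=
          mul_le_mul_of_nonneg_left hPle (by positivity)

theorem block_choice {θ : ℝ} (h0 : 0 < θ) (h1 : θ ≤ 1) :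
    ∃ C : ℝ, 0 < C ∧ ∀ m : ℕ, ∃ U ⊆ Ico (2 ^ m) (2 ^ (m + 1)), ∀ z : ℂ, ‖z‖ = 1 →
      ‖∑ a ∈ Ico (2 ^ m) (2 ^ (m + 1)),
          (((if a ∈ U then (1 : ℝ) else 0) - pc θ a : ℝ) : ℂ) * z ^ a‖
        ≤ C * ((m : ℝ) + 1) * ((2 : ℝ) ^ m) ^ (θ / 2) :=
  block_choice_aux h0 h1 (pc_pos h0) (pc_le_one h0 h1) (sum_pc_le h0)
    (fun I S p hp c hc lam T hl0 hl1 hT => exists_choice I S p hp c hc lam T hl0 hl1 hT)

open Classical in
theorem set_choice {θ : ℝ} (h0 : 0 < θ) (h1 : θ ≤ 1) :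
    ∃ (A : Set ℕ) (C : ℝ), 0 < C ∧ ∀ (m : ℕ) (z : ℂ), ‖z‖ = 1 →
      ‖∑ a ∈ range (2 ^ m), (((if a ∈ A then (1 : ℝ) else 0) - pc θ a : ℝ) : ℂ) * z ^ a‖
        ≤ C * ((m : ℝ) + 1) ^ 2 * ((2 : ℝ) ^ m) ^ (θ / 2) :=
  set_choice_aux h0 h1 (block_choice h0 h1)

end Pool.Agent.Helper149.Thin
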