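import Pool.Agent.Helper149.Thin.Defs

/-!
Discrete Fourier inversion, permutation identities, growth comparison and the bridge to `Nat.card`.
(helper lemmas for MP_c06095_nt; proofs contributed by the team's lemma jobs)
-/

noncomputable section

namespace Pool.Agent.Helper149.Thin

open Finset

theorem dft {α : Type*} (F : Finset α) (s : α → ℕ) (ψ : α → ℂ) (M : ℕ) (hM : 0 < M)
    (hs : ∀ f ∈ F, s f < M) (n : ℕ) (hn : n < M) :
    ∑ t ∈ range M, (∑ f ∈ F, ψ f * (zt M) ^ (t * s f)) * ((zt M)⁻¹) ^ (t * n)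
      = M * ∑ f ∈ F with s f = n, ψ f := by
  have hp : IsPrimitiveRoot (zt M) M := Complex.isPrimitiveRoot_exp M hM.ne'
  have hz : zt M ≠ 0 := hp.ne_zero hM.ne'
  have key : ∀ f ∈ F, ∑ t ∈ range M, (zt M) ^ (t * s f) * ((zt M)⁻¹) ^ (t * n)
      = if s f = n then (M : ℂ) else 0 := by
    intro f hf
    have h1 : ∀ t : ℕ, (zt M) ^ (t * s f) * ((zt M)⁻¹) ^ (t * n)
        = ((zt M) ^ (s f) * ((zt M)⁻¹) ^ n) ^ t := by
      intro t
      rw [mul_pow, ← pow_mul, ← pow_mul, mul_comm t, mul_comm t]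
    simp_rw [h1]
    split_ifs with h
    · rw [h, ← mul_pow, mul_inv_cancel₀ hz]
      simp
    · set r := (zt M) ^ (s f) * ((zt M)⁻¹) ^ n with hr
      have hr1 : r ≠ 1 := by
        intro h2
        apply h
        refine hp.pow_inj (hs f hf) hn ?_
        have h3 : r * (zt M) ^ n = (zt M) ^ (s f) := by
          rw [hr, mul_assoc, ← mul_pow, inv_mul_cancel₀ hz]
          simp
        rw [← h3, h2, one_mul]
      have hrM : r ^ M = 1 := by
        rw [hr, mul_pow, ← pow_mul, ← pow_mul, mul_comm (s f), mul_comm n, pow_mul, pow_mul,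
          inv_pow, hp.pow_eq_one]
        simp
      have h4 := mul_geom_sum r M
      rw [hrM, sub_self] at h4
      rcases mul_eq_zero.1 h4 with h5 | h5
      · exact absurd (sub_eq_zero.1 h5) hr1
      · exact h5
  calc ∑ t ∈ range M, (∑ f ∈ F, ψ f * (zt M) ^ (t * s f)) * ((zt M)⁻¹) ^ (t * n)
      = ∑ f ∈ F, ψ f * ∑ t ∈ range M, (zt M) ^ (t * s f) * ((zt M)⁻¹) ^ (t * n) := by
        simp_rw [sum_mul, mul_sum]
        rw [sum_comm]
        refine sum_congr rfl fun f _ => sum_congr rfl fun t _ => ?_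
        ring
    _ = ∑ f ∈ F, ψ f * (if s f = n then (M : ℂ) else 0) := by
        refine sum_congr rfl fun f hf => ?_
        rw [key f hf]
    _ = M * ∑ f ∈ F with s f = n, ψ f := by
        rw [sum_filter, mul_sum]
        refine sum_congr rfl fun f hf => ?_
        split_ifs <;> ring

theorem zt_norm (M : ℕ) : ‖zt M‖ = 1 := by
  unfold zt
  rw [Complex.norm_exp]
  have : (2 * (Real.pi : ℂ) * Complex.I / M).re = 0 := by
    have h : (2 * (Real.pi : ℂ) * Complex.I / M) = ((2 * Real.pi / M : ℝ) : ℂ) * Complex.I := by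
      push_cast
      ring
    rw [h]
    simp
  rw [this, Real.exp_zero]

theorem zt_pow_ne_one {M t : ℕ} (h0 : 0 < t) (h1 : t < M) : (zt M) ^ t ≠ 1 := by
  have hM : M ≠ 0 := by omega
  have hp : IsPrimitiveRoot (zt M) M := Complex.isPrimitiveRoot_exp M hM
  exact hp.pow_ne_one_of_pos_of_lt h0.ne' h1

theorem sum_pow_expand (k : ℕ) (S : Finset ℕ) (w : ℕ → ℂ) (z : ℂ) :
    ∑ f ∈ Fintype.piFinset (fun _ : Fin k => S), (∏ i, w (f i)) * z ^ (∑ i, f i)
      = (∑ a ∈ S, w a * z ^ a) ^ k := by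
  have h := Finset.prod_univ_sum (fun _ : Fin k => S) (fun _ a => w a * z ^ a)
  rw [Finset.prod_const, Finset.card_univ, Fintype.card_fin] at h
  rw [h]
  refine sum_congr rfl fun f _ => ?_
  rw [Finset.prod_mul_distrib, Finset.prod_pow_eq_pow_sum]

theorem sigma_bound (k : ℕ) (σ : Equiv.Perm (Fin k)) (hσ : σ ≠ 1) :
    ∃ a b : ℕ, 1 ≤ b ∧ a + 2 * b ≤ k ∧ ∀ (S : Finset ℕ) (z : ℂ), ‖z‖ ≤ 1 →
      ‖∑ f ∈ (Fintype.piFinset fun _ : Fin k => S) with (∀ i, f (σ i) = f i), z ^ (∑ i, f i)‖
        ≤ ‖∑ x ∈ S, z ^ x‖ ^ a * (S.card : ℝ) ^ b := by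
  classical
  let r : Fin k → Fin k → Prop := fun i j => σ i = j
  let Q := Quot r
  haveI : Fintype Q := Fintype.ofFinite Q
  let n : Q → ℕ := fun q => (univ.filter (fun i => Quot.mk r i = q)).card
  have hmk : ∀ i, Quot.mk r i = Quot.mk r (σ i) := fun i => Quot.sound rfl
  have hn1 : ∀ q, 1 ≤ n q := by
    intro q
    obtain ⟨i, rfl⟩ := Quot.exists_rep q
    apply Finset.card_pos.mpr
    exact ⟨i, by simp⟩
  refine ⟨(univ.filter (fun q : Q => n q = 1)).card, (univ.filter (fun q : Q => ¬ n q = 1)).card, ?_, ?_, ?_⟩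
  · obtain ⟨i, hi⟩ : ∃ i, σ i ≠ i := by
      by_contra h
      push Not at h
      exact hσ (Equiv.ext h)
    apply Finset.card_pos.mpr
    refine ⟨Quot.mk r i, ?_⟩
    rw [Finset.mem_filter]
    refine ⟨Finset.mem_univ _, ?_⟩
    have h2 : 1 < n (Quot.mk r i) := by
      apply Finset.one_lt_card.mpr
      exact ⟨i, by simp, σ i, by rw [Finset.mem_filter]; exact ⟨Finset.mem_univ _, (hmk i).symm⟩, fun h => hi h.symm⟩
    omega
  · have h1 : k = ∑ q : Q, n q := by
      have := Finset.card_eq_sum_card_fiberwise (f := Quot.mk r) (s := (univ : Finset (Fin k))) (t := (univ : Finset Q))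
        (fun i _ => by simp)
      rw [Finset.card_univ, Fintype.card_fin] at this
      exact this
    have h2 : ∑ q : Q, (if n q = 1 then 1 else 2) ≤ ∑ q : Q, n q := by
      apply Finset.sum_le_sum
      intro q _
      have := hn1 q
      split_ifs with h
      · omega
      · omega
    rw [Finset.sum_ite, Finset.sum_const, Finset.sum_const, smul_eq_mul, smul_eq_mul, mul_one] at h2
    rw [h1]
    omega
  · intro S z hz
    have hsum : ∑ f ∈ (Fintype.piFinset fun _ : Fin k => S) with (∀ i, f (σ i) = f i), z ^ (∑ i, f i) =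
        ∏ q : Q, ∑ x ∈ S, z ^ (n q * x) := by
      rw [Finset.prod_univ_sum]
      symm
      apply Finset.sum_bij' (i := fun (g : Q → ℕ) _ => fun i => g (Quot.mk r i))
        (j := fun (f : Fin k → ℕ) _ => fun q => f (Quot.out q))
      · intro g hg
        rw [Finset.mem_filter, Fintype.mem_piFinset]
        rw [Fintype.mem_piFinset] at hg
        exact ⟨fun i => hg _, fun i => congrArg g (hmk i).symm⟩
      · intro f hf
        rw [Finset.mem_filter, Fintype.mem_piFinset] at hf
        rw [Fintype.mem_piFinset]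
        exact fun q => hf.1 _
      · intro g hg
        funext q
        show g (Quot.mk r (Quot.out q)) = g q
        rw [Quot.out_eq]
      · intro f hf
        rw [Finset.mem_filter] at hf
        funext i
        let F : Q → ℕ := Quot.lift f (by
          intro a b hab
          have : σ a = b := hab
          rw [← this, hf.2 a])
        have hF : ∀ j, F (Quot.mk r j) = f j := fun j => rfl
        show f (Quot.out (Quot.mk r i)) = f i
        rw [← hF (Quot.out (Quot.mk r i)), Quot.out_eq, hF]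
      · intro g hg
        rw [Finset.prod_pow_eq_pow_sum]
        congr 1
        rw [← Finset.sum_fiberwise_of_maps_to (s := (univ : Finset (Fin k))) (t := (univ : Finset Q)) (g := Quot.mk r) (fun i _ => Finset.mem_univ _)]
        apply Finset.sum_congr rfl
        intro q _
        have h3 : ∑ i ∈ univ.filter (fun i => Quot.mk r i = q), g (Quot.mk r i) = ∑ i ∈ univ.filter (fun i => Quot.mk r i = q), g q := by
          apply Finset.sum_congr rfl
          intro i hi
          rw [(Finset.mem_filter.mp hi).2]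
        rw [h3, Finset.sum_const, smul_eq_mul]
    rw [hsum, norm_prod]
    have hle : ∀ q : Q, ‖∑ x ∈ S, z ^ (n q * x)‖ ≤ if n q = 1 then ‖∑ x ∈ S, z ^ x‖ else (S.card : ℝ) := by
      intro q
      split_ifs with h
      · simp only [h, one_mul]
        exact le_refl _
      · refine (norm_sum_le _ _).trans ?_
        have h4 : ∀ x ∈ S, ‖z ^ (n q * x)‖ ≤ 1 := by
          intro x _
          rw [norm_pow]
          exact pow_le_one₀ (norm_nonneg _) hz
        calc ∑ x ∈ S, ‖z ^ (n q * x)‖ ≤ ∑ x ∈ S, (1 : ℝ) := Finset.sum_le_sum h4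
          _ = S.card := by simp
    calc ∏ q : Q, ‖∑ x ∈ S, z ^ (n q * x)‖ ≤ ∏ q : Q, (if n q = 1 then ‖∑ x ∈ S, z ^ x‖ else (S.card : ℝ)) :=
          Finset.prod_le_prod (fun q _ => norm_nonneg _) (fun q _ => hle q)
      _ = _ := by rw [Finset.prod_ite, Finset.prod_const, Finset.prod_const]

theorem strict_identity_noninj {k : ℕ} (f : Fin k → ℕ) (hf : ¬ Function.Injective f) :
    ∑ σ ∈ (univ : Finset (Equiv.Perm (Fin k))).filter (fun σ => ∀ i, f (σ i) = f i),
      (Equiv.Perm.sign σ : ℤ) = 0 := by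
  classical
  simp only [Function.Injective, not_forall] at hf
  obtain ⟨a, b, hab, hne⟩ := hf
  refine Finset.sum_involution (fun σ _ => σ * Equiv.swap a b) ?_ ?_ ?_ ?_
  · intro σ _
    rw [Equiv.Perm.sign_mul, Equiv.Perm.sign_swap hne]
    simp
  · intro σ _ _ h
    have h1 : Equiv.swap a b = 1 := by
      have h2 : σ * Equiv.swap a b = σ * 1 := by rw [h, mul_one]
      exact mul_left_cancel h2
    have h3 := congrArg (fun τ : Equiv.Perm (Fin k) => τ a) h1
    simp only [Equiv.swap_apply_left, Equiv.Perm.coe_one, id] at h3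
    exact hne h3.symm
  · intro σ hσ
    rw [Finset.mem_filter] at hσ ⊢
    refine ⟨Finset.mem_univ _, fun l => ?_⟩
    rw [Equiv.Perm.mul_apply, hσ.2, Equiv.swap_apply_def]
    split_ifs with h1 h2
    · rw [h1]; exact hab.symm
    · rw [h2]; exact hab
    · rfl
  · intro σ _
    rw [mul_assoc, Equiv.swap_mul_self, mul_one]

theorem strict_identity_inj {k : ℕ} (f : Fin k → ℕ) (hf : Function.Injective f) :
    ∑ σ ∈ (univ : Finset (Equiv.Perm (Fin k))).filter (fun σ => ∀ i, f (σ i) = f i),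
      (Equiv.Perm.sign σ : ℤ) = 1 := by
  classical
  have h : (univ : Finset (Equiv.Perm (Fin k))).filter (fun σ => ∀ i, f (σ i) = f i) = {1} := by
    ext σ
    rw [Finset.mem_filter, Finset.mem_singleton]
    constructor
    · rintro ⟨-, h⟩
      ext i
      rw [hf (h i)]
      rfl
    · rintro rfl
      exact ⟨Finset.mem_univ _, fun i => rfl⟩
  rw [h, Finset.sum_singleton]
  simp

theorem strict_identity_count (k : ℕ) (S : Finset ℕ) (n : ℕ) :
    k.factorial * ((Fintype.piFinset fun _ : Fin k => S).filter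
        (fun f => ∑ i, f i = n ∧ StrictMono f)).card =
      ((Fintype.piFinset fun _ : Fin k => S).filter
        (fun f => ∑ i, f i = n ∧ Function.Injective f)).card := by
  classical
  have h1 : k.factorial = (univ : Finset (Equiv.Perm (Fin k))).card := by
    rw [Finset.card_univ, Fintype.card_perm, Fintype.card_fin]
  rw [h1, ← Finset.card_product]
  refine Finset.card_bij (fun p _ => p.2 ∘ p.1) ?_ ?_ ?_
  · intro p hp
    rw [Finset.mem_product, Finset.mem_filter, Fintype.mem_piFinset] at hp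
    rw [Finset.mem_filter, Fintype.mem_piFinset]
    refine ⟨fun i => hp.2.1 _, ?_, ?_⟩
    · rw [← hp.2.2.1]
      exact Equiv.sum_comp p.1 p.2
    · exact hp.2.2.2.injective.comp p.1.injective
  · intro p hp q hq h
    rw [Finset.mem_product, Finset.mem_filter] at hp hq
    have h' : p.2 ∘ p.1 = q.2 ∘ q.1 := h
    have e1 : p.2 = (p.2 ∘ p.1) ∘ (p.1⁻¹ : Equiv.Perm (Fin k)) := by
      funext i
      simp
    have e2 : q.2 = (p.2 ∘ p.1) ∘ (q.1⁻¹ : Equiv.Perm (Fin k)) := by
      rw [h']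
      funext i
      simp
    have m1 : Monotone ((p.2 ∘ p.1) ∘ (p.1⁻¹ : Equiv.Perm (Fin k))) := by
      rw [← e1]; exact hp.2.2.2.monotone
    have m2 : Monotone ((p.2 ∘ p.1) ∘ (q.1⁻¹ : Equiv.Perm (Fin k))) := by
      rw [← e2]; exact hq.2.2.2.monotone
    have e3 := Tuple.unique_monotone m1 m2
    rw [← e1, ← e2] at e3
    refine Prod.ext ?_ e3
    ext i
    have h4 := congrFun h' i
    simp only [Function.comp_apply] at h4
    rw [← e3] at h4
    rw [hp.2.2.2.injective h4]
  · intro f hf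
    rw [Finset.mem_filter, Fintype.mem_piFinset] at hf
    refine ⟨((Tuple.sort f)⁻¹, f ∘ Tuple.sort f), ?_, ?_⟩
    · rw [Finset.mem_product, Finset.mem_filter, Fintype.mem_piFinset]
      refine ⟨Finset.mem_univ _, fun i => hf.1 _, ?_, ?_⟩
      · rw [← hf.2.1]
        exact Equiv.sum_comp (Tuple.sort f) f
      · exact (Tuple.monotone_sort f).strictMono_of_injective
          (hf.2.2.comp (Tuple.sort f).injective)
    · funext i
      simp

theorem strict_identity (k : ℕ) (S : Finset ℕ) (n : ℕ) :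
    (k.factorial : ℤ) * (((Fintype.piFinset fun _ : Fin k => S).filter
        (fun f => ∑ i, f i = n ∧ StrictMono f)).card : ℤ)
      = ∑ σ : Equiv.Perm (Fin k), (Equiv.Perm.sign σ : ℤ) *
        (((Fintype.piFinset fun _ : Fin k => S).filter
          (fun f => ∑ i, f i = n ∧ ∀ i, f (σ i) = f i)).card : ℤ) := by
  classical
  set A := (Fintype.piFinset fun _ : Fin k => S).filter (fun f => ∑ i, f i = n) with hA
  have e1 : ∀ σ : Equiv.Perm (Fin k), (((Fintype.piFinset fun _ : Fin k => S).filter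
      (fun f => ∑ i, f i = n ∧ ∀ i, f (σ i) = f i)).card : ℤ) =
      ∑ f ∈ A, if (∀ i, f (σ i) = f i) then (1 : ℤ) else 0 := by
    intro σ
    rw [← Finset.filter_filter, ← hA, Finset.card_filter]
    push_cast
    rfl
  simp_rw [e1, Finset.mul_sum]
  rw [Finset.sum_comm]
  have e2 : ∀ f ∈ A, ∑ σ : Equiv.Perm (Fin k), (Equiv.Perm.sign σ : ℤ) *
      (if (∀ i, f (σ i) = f i) then (1 : ℤ) else 0) =
      if Function.Injective f then (1 : ℤ) else 0 := by
    intro f _
    have e3 : ∑ σ : Equiv.Perm (Fin k), (Equiv.Perm.sign σ : ℤ) *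
      (if (∀ i, f (σ i) = f i) then (1 : ℤ) else 0) =
      ∑ σ ∈ (univ : Finset (Equiv.Perm (Fin k))).filter (fun σ => ∀ i, f (σ i) = f i),
      (Equiv.Perm.sign σ : ℤ) := by
      rw [Finset.sum_filter]
      apply Finset.sum_congr rfl
      intro σ _
      split_ifs <;> simp
    rw [e3]
    split_ifs with h
    · exact strict_identity_inj f h
    · exact strict_identity_noninj f h
  rw [Finset.sum_congr rfl e2]
  have h := strict_identity_count k S n
  have h' : (k.factorial : ℤ) * (((Fintype.piFinset fun _ : Fin k => S).filter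
        (fun f => ∑ i, f i = n ∧ StrictMono f)).card : ℤ) =
      (((Fintype.piFinset fun _ : Fin k => S).filter
        (fun f => ∑ i, f i = n ∧ Function.Injective f)).card : ℤ) := by
    exact_mod_cast h
  rw [h', ← Finset.filter_filter, ← hA, Finset.card_filter]
  push_cast
  rfl

theorem mono_shift (k : ℕ) (S : Finset ℕ) (n : ℕ) (σ : Equiv.Perm (Fin k)) :
    ((Fintype.piFinset fun _ : Fin k => S).filter
        (fun f => ∑ i, f i = n ∧ Monotone f)).card =
      ((Fintype.piFinset fun _ : Fin k => S).filter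
        (fun f => ∑ i, f i = n ∧ Monotone (f ∘ σ))).card := by
  apply Finset.card_nbij' (fun g => g ∘ σ.symm) (fun f => f ∘ σ)
  · intro g hg
    rw [Finset.mem_coe, Finset.mem_filter, Fintype.mem_piFinset] at hg ⊢
    refine ⟨fun i => hg.1 _, ?_, ?_⟩
    · rw [← hg.2.1]
      exact Equiv.sum_comp σ.symm g
    · have h : (g ∘ σ.symm) ∘ σ = g := by
        funext i
        simp
      rw [h]
      exact hg.2.2
  · intro f hf
    rw [Finset.mem_coe, Finset.mem_filter, Fintype.mem_piFinset] at hf ⊢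
    refine ⟨fun i => hf.1 _, ?_, hf.2.2⟩
    rw [← hf.2.1]
    exact Equiv.sum_comp σ f
  · intro g _
    funext i
    simp
  · intro f _
    funext i
    simp

theorem mono_stab (k : ℕ) (f : Fin k → ℕ) :
    (Finset.univ.filter (fun σ : Equiv.Perm (Fin k) => Monotone (f ∘ σ))).card =
      (Finset.univ.filter (fun σ : Equiv.Perm (Fin k) => ∀ i, f (σ i) = f i)).card := by
  apply Finset.card_nbij' (fun σ => σ * (Tuple.sort f)⁻¹) (fun σ => σ * Tuple.sort f)
  · intro σ hσ
    rw [Finset.mem_coe, Finset.mem_filter] at hσ ⊢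
    refine ⟨Finset.mem_univ _, fun i => ?_⟩
    have h := Tuple.comp_sort_eq_comp_iff_monotone.2 hσ.2
    have h2 := congrFun h ((Tuple.sort f)⁻¹ i)
    simp only [Function.comp_apply] at h2
    rw [Equiv.Perm.mul_apply, h2]
    congr 1
    exact (Tuple.sort f).apply_symm_apply i
  · intro σ hσ
    rw [Finset.mem_coe, Finset.mem_filter] at hσ ⊢
    refine ⟨Finset.mem_univ _, ?_⟩
    apply Tuple.comp_sort_eq_comp_iff_monotone.1
    funext i
    simp only [Function.comp_apply, Equiv.Perm.mul_apply]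
    rw [hσ.2]
  · intro σ _
    simp
  · intro σ _
    simp

theorem mono_identity (k : ℕ) (S : Finset ℕ) (n : ℕ) :
    (k.factorial : ℤ) * (((Fintype.piFinset fun _ : Fin k => S).filter
        (fun f => ∑ i, f i = n ∧ Monotone f)).card : ℤ)
      = ∑ σ : Equiv.Perm (Fin k),
        (((Fintype.piFinset fun _ : Fin k => S).filter
          (fun f => ∑ i, f i = n ∧ ∀ i, f (σ i) = f i)).card : ℤ) := by
  have h1 : k.factorial * ((Fintype.piFinset fun _ : Fin k => S).filter
        (fun f => ∑ i, f i = n ∧ Monotone f)).card =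
      ∑ σ : Equiv.Perm (Fin k), ((Fintype.piFinset fun _ : Fin k => S).filter
        (fun f => ∑ i, f i = n ∧ Monotone (f ∘ σ))).card := by
    rw [Finset.sum_congr rfl (fun σ _ => (mono_shift k S n σ).symm), Finset.sum_const,
      Finset.card_univ, Fintype.card_perm, Fintype.card_fin, smul_eq_mul]
  have h2 : ∀ (P : (Fin k → ℕ) → Equiv.Perm (Fin k) → Prop) [∀ f σ, Decidable (P f σ)],
      ∑ σ : Equiv.Perm (Fin k), ((Fintype.piFinset fun _ : Fin k => S).filter
        (fun f => ∑ i, f i = n ∧ P f σ)).card =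
      ∑ f ∈ (Fintype.piFinset fun _ : Fin k => S).filter (fun f => ∑ i, f i = n),
        (Finset.univ.filter (fun σ : Equiv.Perm (Fin k) => P f σ)).card := by
    intro P _
    simp only [Finset.card_filter, ← Finset.filter_filter]
    rw [Finset.sum_comm]
  have h4 : k.factorial * ((Fintype.piFinset fun _ : Fin k => S).filter
        (fun f => ∑ i, f i = n ∧ Monotone f)).card =
      ∑ σ : Equiv.Perm (Fin k), ((Fintype.piFinset fun _ : Fin k => S).filter
        (fun f => ∑ i, f i = n ∧ ∀ i, f (σ i) = f i)).card := by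
    rw [h1, h2 (fun f σ => Monotone (f ∘ σ)), h2 (fun f σ => ∀ i, f (σ i) = f i)]
    apply Finset.sum_congr rfl
    intro f _
    exact mono_stab k f
  exact_mod_cast h4

theorem asymp_tendsto {ε : ℝ} (hε : 0 < ε) (K : ℕ) :
    Filter.Tendsto (fun m : ℕ => ((m : ℝ) + 1) ^ K * ((2 : ℝ) ^ m) ^ (-ε)) Filter.atTop (nhds 0) := by
  obtain ⟨r, hr⟩ : ∃ r : ℝ, r = (2 : ℝ) ^ (-ε) := ⟨_, rfl⟩
  have hr0 : 0 < r := by rw [hr]; positivity
  have hr1 : r < 1 := by
    rw [hr]
    exact Real.rpow_lt_one_of_one_lt_of_neg (by norm_num) (by linarith)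
  have h1 := tendsto_pow_const_mul_const_pow_of_abs_lt_one K (r := r)
    (by rw [abs_of_pos hr0]; exact hr1)
  have h2 := (Filter.tendsto_add_atTop_iff_nat 1).2 h1
  have h3 := h2.const_mul r⁻¹
  rw [mul_zero] at h3
  refine h3.congr fun m => ?_
  have h4 : ((2 : ℝ) ^ m) ^ (-ε) = r ^ m := by
    rw [hr, ← Real.rpow_natCast, ← Real.rpow_natCast, ← Real.rpow_mul (by norm_num),
      ← Real.rpow_mul (by norm_num), mul_comm]
  rw [h4]
  push_cast
  rw [pow_succ r m]
  field_simp

theorem asymp {c C γ δ : ℝ} (hc : 0 < c) (hγ : γ < δ) (K : ℕ) :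
    ∃ m0 : ℕ, ∀ m ≥ m0, C * ((m : ℝ) + 1) ^ K * ((2 : ℝ) ^ m) ^ γ < c * ((2 : ℝ) ^ m) ^ δ := by
  have h1 := (asymp_tendsto (ε := δ - γ) (by linarith) K).const_mul C
  rw [mul_zero] at h1
  obtain ⟨m0, hm0⟩ := Filter.eventually_atTop.1 (h1.eventually_lt_const hc)
  refine ⟨m0, fun m hm => ?_⟩
  have h2 := hm0 m hm
  have h3 : (0:ℝ) < ((2 : ℝ) ^ m) ^ δ := by positivity
  have h4 : ((2 : ℝ) ^ m) ^ (-(δ - γ)) * ((2 : ℝ) ^ m) ^ δ = ((2 : ℝ) ^ m) ^ γ := by
    rw [← Real.rpow_add (by positivity)]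
    congr 1
    ring
  have h5 := mul_lt_mul_of_pos_right h2 h3
  calc C * ((m : ℝ) + 1) ^ K * ((2 : ℝ) ^ m) ^ γ
      = C * (((m : ℝ) + 1) ^ K * ((2 : ℝ) ^ m) ^ (-(δ - γ))) * ((2 : ℝ) ^ m) ^ δ := by
        rw [← h4]
        ring
    _ < c * ((2 : ℝ) ^ m) ^ δ := h5

theorem poly_le {γ : ℝ} (hγ : 0 < γ) (K : ℕ) :
    ∃ C : ℝ, 0 < C ∧ ∀ m : ℕ, ((m : ℝ) + 1) ^ K ≤ C * ((2 : ℝ) ^ m) ^ γ := by
  obtain ⟨B, hB⟩ := (asymp_tendsto hγ K).bddAbove_range
  refine ⟨max B 1, lt_of_lt_of_le one_pos (le_max_right _ _), fun m => ?_⟩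
  have h1 : ((m : ℝ) + 1) ^ K * ((2 : ℝ) ^ m) ^ (-γ) ≤ B := hB ⟨m, rfl⟩
  have h3 : (0:ℝ) < ((2 : ℝ) ^ m) ^ γ := by positivity
  have h4 : ((2 : ℝ) ^ m) ^ (-γ) * ((2 : ℝ) ^ m) ^ γ = 1 := by
    rw [← Real.rpow_add (by positivity), neg_add_cancel, Real.rpow_zero]
  calc ((m : ℝ) + 1) ^ K = (((m : ℝ) + 1) ^ K * ((2 : ℝ) ^ m) ^ (-γ)) * ((2 : ℝ) ^ m) ^ γ := by
        rw [mul_assoc, h4, mul_one]
    _ ≤ max B 1 * ((2 : ℝ) ^ m) ^ γ :=
        mul_le_mul_of_nonneg_right (h1.trans (le_max_left _ _)) h3.le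

open Classical in
theorem bridge (A : Set ℕ) (k N n : ℕ) (hn : n < N) (P : (Fin k → ℕ) → Prop)
    (hP : ∀ f, P (fun i => f i + 1) ↔ P f) :
    Nat.card {f : Fin k → ℕ // (∀ i, f i ∈ (fun a => a + 1) '' A) ∧ ∑ i, f i = n + k ∧ P f}
      = ((Fintype.piFinset fun _ : Fin k => (range N).filter (· ∈ A)).filter
          (fun f => ∑ i, f i = n ∧ P f)).card := by
  rw [← Fintype.card_coe, ← Nat.card_eq_fintype_card]
  have key : ∀ f : Fin k → ℕ, ((∀ i, f i ∈ (fun a => a + 1) '' A) ∧ ∑ i, f i = n + k ∧ P f) →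
      (fun i => f i - 1) ∈ ((Fintype.piFinset fun _ : Fin k => (range N).filter (· ∈ A)).filter
          (fun f => ∑ i, f i = n ∧ P f)) ∧ (fun i => f i - 1 + 1) = f := by
    rintro f ⟨h1, h2, h3⟩
    have h4 : ∀ i, f i - 1 + 1 = f i ∧ f i - 1 ∈ A := by
      intro i
      obtain ⟨a, ha, hai⟩ := h1 i
      have h5 : a + 1 = f i := hai
      rw [← h5]
      exact ⟨rfl, ha⟩
    have h6 : (fun i => f i - 1 + 1) = f := funext fun i => (h4 i).1
    have h7 : ∑ i, (f i - 1) = n := by
      have h8 : ∑ i, (f i - 1 + 1) = n + k := by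
        rw [← h2]
        exact Finset.sum_congr rfl fun i _ => (h4 i).1
      rw [Finset.sum_add_distrib, Finset.sum_const, Finset.card_univ, Fintype.card_fin,
        smul_eq_mul, mul_one] at h8
      omega
    refine ⟨?_, h6⟩
    rw [Finset.mem_filter, Fintype.mem_piFinset]
    refine ⟨fun i => ?_, h7, ?_⟩
    · rw [Finset.mem_filter, Finset.mem_range]
      refine ⟨?_, (h4 i).2⟩
      have h9 : f i - 1 ≤ ∑ i, (f i - 1) :=
        Finset.single_le_sum (f := fun i => f i - 1) (fun _ _ => Nat.zero_le _)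
          (Finset.mem_univ i)
      rw [h7] at h9
      omega
    · rw [← hP, h6]
      exact h3
  apply Nat.card_congr
  exact
    { toFun := fun f => ⟨fun i => f.1 i - 1, (key f.1 f.2).1⟩
      invFun := fun g => ⟨fun i => g.1 i + 1, by
        have hg := g.2
        rw [Finset.mem_filter, Fintype.mem_piFinset] at hg
        refine ⟨fun i => ?_, ?_, ?_⟩
        · have := hg.1 i
          rw [Finset.mem_filter] at this
          exact ⟨g.1 i, this.2, rfl⟩
        · rw [Finset.sum_add_distrib, hg.2.1]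
          simp
        · rw [hP]
          exact hg.2.2⟩
      left_inv := fun f => Subtype.ext (key f.1 f.2).2
      right_inv := fun g => Subtype.ext (funext fun i => Nat.add_sub_cancel _ _) }

end Pool.Agent.Helper149.Thin
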