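import Pool.Agent.Helper149.Thin.Lemmas

noncomputable section

namespace Pool.Agent.Helper149.Thin

open Finset

theorem zt_norm' (M : ℕ) : ‖zt M‖ = 1 := by
  unfold zt
  rw [show (2 * (Real.pi : ℂ) * Complex.I / M) = ((2 * Real.pi / M : ℝ) : ℂ) * Complex.I by
    push_cast; ring]
  exact Complex.norm_exp_ofReal_mul_I _

theorem zt_pow_ne_one' {M t : ℕ} (h0 : 0 < t) (h1 : t < M) : (zt M) ^ t ≠ 1 := by
  have hM : M ≠ 0 := by omega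
  have hp : IsPrimitiveRoot (zt M) M := Complex.isPrimitiveRoot_exp M hM
  exact hp.pow_ne_one_of_pos_of_lt (by omega) h1

theorem W_bound {θ : ℝ} (h0 : 0 < θ) (h1 : θ ≤ 1) (k : ℕ) (hk : 1 ≤ k) (a : ℕ) :
    ∃ C : ℝ, 0 < C ∧ ∀ m : ℕ,
      ∑ t ∈ range (k * 2 ^ m), ‖1 - zt (k * 2 ^ m) ^ t‖ *
          ‖∑ x ∈ range (2 ^ m), (pc θ x : ℂ) * (zt (k * 2 ^ m) ^ t) ^ x‖ ^ a
        ≤ C * ((k * 2 ^ m : ℕ) : ℝ) * ((m : ℝ) + 1) * max 1 (((2 : ℝ) ^ m) ^ (a * θ - 2)) := by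
  obtain ⟨C7, hC7, h7⟩ := norm_sum_pc_le h0 h1
  obtain ⟨C8, hC8, h8⟩ := sum_root_rpow (b := a * θ) (by positivity)
  refine ⟨C7 ^ a * C8 * (1 + Real.log k) * max 1 ((k : ℝ) ^ ((a : ℝ) * θ - 2)), ?_, ?_⟩
  · have : 0 ≤ Real.log k := Real.log_natCast_nonneg k
    have h2 : (0:ℝ) < max 1 ((k : ℝ) ^ ((a : ℝ) * θ - 2)) := lt_of_lt_of_le one_pos (le_max_left _ _)
    positivity
  intro m
  set M := k * 2 ^ m with hMdef
  have hM1 : 1 ≤ M := Nat.one_le_iff_ne_zero.mpr (by positivity)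
  have hkR : (1:ℝ) ≤ k := by exact_mod_cast hk
  have hlogk : 0 ≤ Real.log k := Real.log_natCast_nonneg k
  have hx1 : (1:ℝ) ≤ (2:ℝ) ^ m := one_le_pow₀ (by norm_num)
  have hsum0 : ∑ t ∈ range M, ‖1 - zt M ^ t‖ *
          ‖∑ x ∈ range (2 ^ m), (pc θ x : ℂ) * (zt M ^ t) ^ x‖ ^ a
      = ∑ t ∈ (range M).erase 0, ‖1 - zt M ^ t‖ *
          ‖∑ x ∈ range (2 ^ m), (pc θ x : ℂ) * (zt M ^ t) ^ x‖ ^ a := by
    rw [Finset.sum_erase]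
    simp
  rw [hsum0]
  have hterm : ∀ t ∈ (range M).erase 0, ‖1 - zt M ^ t‖ *
          ‖∑ x ∈ range (2 ^ m), (pc θ x : ℂ) * (zt M ^ t) ^ x‖ ^ a
      ≤ C7 ^ a * ‖1 - zt M ^ t‖ ^ (1 - (a:ℝ) * θ) := by
    intro t ht
    rw [Finset.mem_erase, Finset.mem_range] at ht
    have hne : zt M ^ t ≠ 1 := zt_pow_ne_one' (Nat.pos_of_ne_zero ht.1) ht.2
    have hn1 : ‖zt M ^ t‖ = 1 := by rw [norm_pow, zt_norm', one_pow]
    have hd : 0 < ‖1 - zt M ^ t‖ := norm_pos_iff.mpr (sub_ne_zero.mpr (Ne.symm hne))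
    have hb := h7 (2 ^ m) (zt M ^ t) hn1 hne
    calc ‖1 - zt M ^ t‖ * ‖∑ x ∈ range (2 ^ m), (pc θ x : ℂ) * (zt M ^ t) ^ x‖ ^ a
        ≤ ‖1 - zt M ^ t‖ * (C7 * ‖1 - zt M ^ t‖ ^ (-θ)) ^ a := by gcongr
      _ = C7 ^ a * (‖1 - zt M ^ t‖ ^ (1:ℝ) * ‖1 - zt M ^ t‖ ^ (-θ * a)) := by
          rw [mul_pow, Real.rpow_one, ← Real.rpow_mul_natCast hd.le]; ring
      _ = C7 ^ a * ‖1 - zt M ^ t‖ ^ (1 - (a:ℝ) * θ) := by
          rw [← Real.rpow_add hd]; congr 2; ring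
  have hMR : ((M : ℕ) : ℝ) = k * (2:ℝ) ^ m := by rw [hMdef]; push_cast; ring
  have hlogM : 1 + Real.log M ≤ (1 + Real.log k) * ((m:ℝ) + 1) := by
    rw [hMR, Real.log_mul (by positivity) (by positivity), Real.log_pow]
    have hl2 : Real.log 2 ≤ 1 := by
      have := Real.log_two_lt_d9; linarith
    have hm0 : (0:ℝ) ≤ m := Nat.cast_nonneg m
    nlinarith [mul_nonneg hm0 hlogk, mul_le_mul_of_nonneg_left hl2 hm0]
  have hmax : max 1 ((M : ℝ) ^ ((a:ℝ) * θ - 2))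
      ≤ max 1 ((k : ℝ) ^ ((a : ℝ) * θ - 2)) * max 1 (((2 : ℝ) ^ m) ^ ((a:ℝ) * θ - 2)) := by
    have e1 : (1:ℝ) ≤ max 1 ((k : ℝ) ^ ((a : ℝ) * θ - 2)) := le_max_left _ _
    have e2 : (1:ℝ) ≤ max 1 (((2 : ℝ) ^ m) ^ ((a:ℝ) * θ - 2)) := le_max_left _ _
    apply max_le
    · nlinarith
    · rw [hMR, Real.mul_rpow (by positivity) (by positivity)]
      exact mul_le_mul (le_max_right _ _) (le_max_right _ _) (by positivity) (by positivity)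
  calc ∑ t ∈ (range M).erase 0, ‖1 - zt M ^ t‖ *
          ‖∑ x ∈ range (2 ^ m), (pc θ x : ℂ) * (zt M ^ t) ^ x‖ ^ a
      ≤ ∑ t ∈ (range M).erase 0, C7 ^ a * ‖1 - zt M ^ t‖ ^ (1 - (a:ℝ) * θ) :=
        Finset.sum_le_sum hterm
    _ = C7 ^ a * ∑ t ∈ (range M).erase 0, ‖1 - zt M ^ t‖ ^ (1 - (a:ℝ) * θ) := by
        rw [Finset.mul_sum]
    _ ≤ C7 ^ a * (C8 * M * (1 + Real.log M) * max 1 ((M : ℝ) ^ ((a:ℝ) * θ - 2))) := by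
        gcongr; exact h8 M hM1
    _ ≤ C7 ^ a * (C8 * M * ((1 + Real.log k) * ((m:ℝ) + 1)) *
          (max 1 ((k : ℝ) ^ ((a : ℝ) * θ - 2)) * max 1 (((2 : ℝ) ^ m) ^ ((a:ℝ) * θ - 2)))) := by
        gcongr
    _ = _ := by ring

theorem diff_norm {α : Type*} (F : Finset α) (s : α → ℕ) (ψ : α → ℂ) (M : ℕ) (hM : 0 < M)
    (hs : ∀ f ∈ F, s f < M) (n : ℕ) (hn : n + 1 < M) :
    (M : ℝ) * ‖(∑ f ∈ F with s f = n + 1, ψ f) - ∑ f ∈ F with s f = n, ψ f‖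
      ≤ ∑ t ∈ range M, ‖1 - zt M ^ t‖ * ‖∑ f ∈ F, ψ f * (zt M ^ t) ^ (s f)‖ := by
  have e1 := dft F s ψ M hM hs (n + 1) hn
  have e2 := dft F s ψ M hM hs n (by omega)
  have e3 : (M : ℂ) * ((∑ f ∈ F with s f = n + 1, ψ f) - ∑ f ∈ F with s f = n, ψ f)
      = ∑ t ∈ range M, (∑ f ∈ F, ψ f * (zt M ^ t) ^ (s f)) *
          (((zt M)⁻¹) ^ (t * (n + 1)) - ((zt M)⁻¹) ^ (t * n)) := by
    rw [mul_sub, ← e1, ← e2, ← Finset.sum_sub_distrib]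
    refine Finset.sum_congr rfl fun t _ => ?_
    rw [← mul_sub]
    congr 1
    refine Finset.sum_congr rfl fun f _ => ?_
    rw [pow_mul]
  have e4 : (M : ℝ) * ‖(∑ f ∈ F with s f = n + 1, ψ f) - ∑ f ∈ F with s f = n, ψ f‖
      = ‖(M : ℂ) * ((∑ f ∈ F with s f = n + 1, ψ f) - ∑ f ∈ F with s f = n, ψ f)‖ := by
    rw [norm_mul, Complex.norm_natCast]
  rw [e4, e3]
  refine (norm_sum_le _ _).trans (Finset.sum_le_sum fun t _ => ?_)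
  rw [norm_mul, mul_comm]
  refine mul_le_mul_of_nonneg_right (le_of_eq ?_) (norm_nonneg _)
  have hz : zt M ≠ 0 := by
    intro h; have := zt_norm' M; rw [h, norm_zero] at this; exact zero_ne_one this
  have hzi : ‖(zt M)⁻¹‖ = 1 := by rw [norm_inv, zt_norm', inv_one]
  have : ((zt M)⁻¹) ^ (t * (n + 1)) - ((zt M)⁻¹) ^ (t * n)
      = (((zt M)⁻¹) ^ (t * (n + 1))) * (1 - zt M ^ t) := by
    rw [mul_sub, mul_one]
    congr 1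
    rw [show t * (n + 1) = t * n + t by ring, pow_add, mul_assoc, ← mul_pow,
      inv_mul_cancel₀ hz, one_pow, mul_one]
  rw [this, norm_mul, norm_pow, hzi, one_pow, one_mul]

open Classical in
/-- the part of `A` below `2^m` -/
def SA (A : Set ℕ) (m : ℕ) : Finset ℕ := (range (2 ^ m)).filter (· ∈ A)

open Classical in
theorem sum_SA (A : Set ℕ) (m : ℕ) (z : ℂ) :
    ∑ x ∈ SA A m, z ^ x
      = ∑ a ∈ range (2 ^ m), (((if a ∈ A then (1 : ℝ) else 0) : ℝ) : ℂ) * z ^ a := by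
  unfold SA
  rw [Finset.sum_filter]
  refine Finset.sum_congr rfl fun a _ => ?_
  split_ifs <;> simp

open Classical in
/-- hypothesis of small discrepancy -/
def Small (θ : ℝ) (A : Set ℕ) (C0 : ℝ) : Prop :=
  ∀ (m : ℕ) (z : ℂ), ‖z‖ = 1 →
      ‖∑ a ∈ range (2 ^ m), (((if a ∈ A then (1 : ℝ) else 0) - pc θ a : ℝ) : ℂ) * z ^ a‖
        ≤ C0 * ((m : ℝ) + 1) ^ 2 * ((2 : ℝ) ^ m) ^ (θ / 2)

theorem Small.diff {θ : ℝ} {A : Set ℕ} {C0 : ℝ} (h : Small θ A C0) (m : ℕ) (z : ℂ)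
    (hz : ‖z‖ = 1) :
    ‖(∑ x ∈ SA A m, z ^ x) - ∑ a ∈ range (2 ^ m), (pc θ a : ℂ) * z ^ a‖
      ≤ C0 * ((m : ℝ) + 1) ^ 2 * ((2 : ℝ) ^ m) ^ (θ / 2) := by
  classical
  refine le_trans (le_of_eq ?_) (h m z hz)
  rw [sum_SA, ← Finset.sum_sub_distrib]
  congr 1
  refine Finset.sum_congr rfl fun a _ => ?_
  push_cast
  ring

theorem card_le {θ : ℝ} (h0 : 0 < θ) {A : Set ℕ} {C0 : ℝ} (hC0 : 0 < C0)
    (h : Small θ A C0) :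
    ∃ C : ℝ, 0 < C ∧ ∀ m : ℕ, ((SA A m).card : ℝ) ≤ C * ((2 : ℝ) ^ m) ^ θ := by
  obtain ⟨C1, hC1, hs⟩ := sum_pc_le h0
  obtain ⟨C2, hC2, hp⟩ := poly_le (γ := θ / 2) (by positivity) 2
  refine ⟨C1 + C0 * C2, by positivity, fun m => ?_⟩
  have hd := h.diff m 1 (by simp)
  simp only [one_pow, mul_one, Finset.sum_const, nsmul_eq_mul] at hd
  have e1 : ((SA A m).card : ℝ) - ∑ a ∈ range (2 ^ m), pc θ a
      ≤ C0 * ((m : ℝ) + 1) ^ 2 * ((2 : ℝ) ^ m) ^ (θ / 2) := by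
    refine le_trans (le_abs_self _) ?_
    rw [← Real.norm_eq_abs, ← Complex.norm_real]
    refine le_trans (le_of_eq ?_) hd
    push_cast
    rfl
  have e2 := hs (2 ^ m) Nat.one_le_two_pow
  have e3 := hp m
  have e4 : ((2 : ℝ) ^ m) ^ θ = ((2 : ℝ) ^ m) ^ (θ / 2) * ((2 : ℝ) ^ m) ^ (θ / 2) := by
    rw [← Real.rpow_add (by positivity)]; congr 1; ring
  have e5 : C0 * ((m : ℝ) + 1) ^ 2 * ((2 : ℝ) ^ m) ^ (θ / 2)
      ≤ C0 * (C2 * ((2 : ℝ) ^ m) ^ (θ / 2)) * ((2 : ℝ) ^ m) ^ (θ / 2) := by gcongr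
  push_cast at e2
  rw [e4] at e2 ⊢
  nlinarith [e1, e2, e5]


theorem pow_sub_pow_le {x y : ℂ} {B : ℝ} (hB : 0 ≤ B) (k : ℕ) (h : ‖x - y‖ ≤ B) :
    ‖x ^ k - y ^ k‖ ≤ k * B * (‖y‖ + B) ^ (k - 1) := by
  have hx : ‖x‖ ≤ ‖y‖ + B := by
    calc ‖x‖ = ‖y + (x - y)‖ := by ring_nf
      _ ≤ ‖y‖ + ‖x - y‖ := norm_add_le _ _
      _ ≤ _ := by linarith
  rw [← Commute.mul_geom_sum₂ (Commute.all x y) k, norm_mul]
  have : ‖∑ i ∈ range k, x ^ i * y ^ (k - 1 - i)‖ ≤ k * (‖y‖ + B) ^ (k - 1) := by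
    refine (norm_sum_le _ _).trans ?_
    calc ∑ i ∈ range k, ‖x ^ i * y ^ (k - 1 - i)‖
        ≤ ∑ i ∈ range k, (‖y‖ + B) ^ (k - 1) := by
          refine Finset.sum_le_sum fun i hi => ?_
          rw [Finset.mem_range] at hi
          rw [norm_mul, norm_pow, norm_pow]
          calc ‖x‖ ^ i * ‖y‖ ^ (k - 1 - i) ≤ (‖y‖ + B) ^ i * (‖y‖ + B) ^ (k - 1 - i) := by
                gcongr
                linarith
            _ = (‖y‖ + B) ^ (k - 1) := by rw [← pow_add]; congr 1; omega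
      _ = k * (‖y‖ + B) ^ (k - 1) := by simp
  calc ‖x - y‖ * ‖∑ i ∈ range k, x ^ i * y ^ (k - 1 - i)‖
      ≤ B * (k * (‖y‖ + B) ^ (k - 1)) := by gcongr
    _ = _ := by ring

theorem add_pow_le_two {x y : ℝ} (hx : 0 ≤ x) (hy : 0 ≤ y) (a : ℕ) :
    (x + y) ^ a ≤ 2 ^ a * (x ^ a + y ^ a) := by
  rcases le_total x y with h | h
  · calc (x + y) ^ a ≤ (2 * y) ^ a := by gcongr; linarith
      _ = 2 ^ a * y ^ a := by rw [mul_pow]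
      _ ≤ _ := by
        gcongr
        have : 0 ≤ x ^ a := by positivity
        linarith
  · calc (x + y) ^ a ≤ (2 * x) ^ a := by gcongr; linarith
      _ = 2 ^ a * x ^ a := by rw [mul_pow]
      _ ≤ _ := by
        gcongr
        have : 0 ≤ y ^ a := by positivity
        linarith

theorem sum_one_sub_le (M : ℕ) : ∑ t ∈ range M, ‖1 - zt M ^ t‖ ≤ 2 * M := by
  calc ∑ t ∈ range M, ‖1 - zt M ^ t‖ ≤ ∑ t ∈ range M, (2:ℝ) := by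
        refine Finset.sum_le_sum fun t _ => ?_
        calc ‖1 - zt M ^ t‖ ≤ ‖(1:ℂ)‖ + ‖zt M ^ t‖ := norm_sub_le _ _
          _ = 2 := by rw [norm_pow, zt_norm', one_pow, norm_one]; norm_num
    _ = 2 * M := by simp [mul_comm]

/-- the weighted sum with `(‖S_p‖ + B)^a` -/
theorem W_bound' {θ : ℝ} (h0 : 0 < θ) (h1 : θ ≤ 1) (k : ℕ) (hk : 1 ≤ k) (a : ℕ) (C0 : ℝ)
    (hC0 : 0 < C0) :
    ∃ C : ℝ, 0 < C ∧ ∀ m : ℕ,
      ∑ t ∈ range (k * 2 ^ m), ‖1 - zt (k * 2 ^ m) ^ t‖ *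
          (‖∑ x ∈ range (2 ^ m), (pc θ x : ℂ) * (zt (k * 2 ^ m) ^ t) ^ x‖
            + C0 * ((m : ℝ) + 1) ^ 2 * ((2 : ℝ) ^ m) ^ (θ / 2)) ^ a
        ≤ C * ((k * 2 ^ m : ℕ) : ℝ) * ((m : ℝ) + 1) ^ (2 * a + 1) *
            (max 1 (((2 : ℝ) ^ m) ^ (a * θ - 2)) + ((2 : ℝ) ^ m) ^ (a * θ / 2)) := by
  obtain ⟨CW, hCW, hW⟩ := W_bound h0 h1 k hk a
  refine ⟨2 ^ a * (CW + 2 * C0 ^ a), by positivity, fun m => ?_⟩
  set M := k * 2 ^ m with hMdef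
  set B := C0 * ((m : ℝ) + 1) ^ 2 * ((2 : ℝ) ^ m) ^ (θ / 2) with hB
  have hBpos : 0 ≤ B := by positivity
  have hm1 : (1:ℝ) ≤ (m:ℝ) + 1 := by have : (0:ℝ) ≤ m := Nat.cast_nonneg m; linarith
  have hBa : B ^ a = C0 ^ a * ((m : ℝ) + 1) ^ (2 * a) * ((2 : ℝ) ^ m) ^ (a * θ / 2) := by
    rw [hB, mul_pow, mul_pow, ← pow_mul, ← Real.rpow_mul_natCast (by positivity)]
    congr 2
    ring
  have e1 : ∑ t ∈ range M, ‖1 - zt M ^ t‖ *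
          (‖∑ x ∈ range (2 ^ m), (pc θ x : ℂ) * (zt M ^ t) ^ x‖ + B) ^ a
      ≤ ∑ t ∈ range M, (2 ^ a * (‖1 - zt M ^ t‖ *
          ‖∑ x ∈ range (2 ^ m), (pc θ x : ℂ) * (zt M ^ t) ^ x‖ ^ a)
            + 2 ^ a * B ^ a * ‖1 - zt M ^ t‖) := by
    refine Finset.sum_le_sum fun t _ => ?_
    have := add_pow_le_two
      (norm_nonneg (∑ x ∈ range (2 ^ m), (pc θ x : ℂ) * (zt M ^ t) ^ x)) hBpos a
    calc _ ≤ ‖1 - zt M ^ t‖ * (2 ^ a *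
          (‖∑ x ∈ range (2 ^ m), (pc θ x : ℂ) * (zt M ^ t) ^ x‖ ^ a + B ^ a)) := by gcongr
      _ = _ := by ring
  refine e1.trans ?_
  rw [Finset.sum_add_distrib, ← Finset.mul_sum, ← Finset.mul_sum]
  have e2 := hW m
  have e3 := sum_one_sub_le M
  have hmax : (0:ℝ) ≤ max 1 (((2 : ℝ) ^ m) ^ ((a:ℝ) * θ - 2)) :=
    le_trans zero_le_one (le_max_left _ _)
  calc 2 ^ a * ∑ t ∈ range M, ‖1 - zt M ^ t‖ *
          ‖∑ x ∈ range (2 ^ m), (pc θ x : ℂ) * (zt M ^ t) ^ x‖ ^ a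
          + 2 ^ a * B ^ a * ∑ t ∈ range M, ‖1 - zt M ^ t‖
      ≤ 2 ^ a * (CW * (M : ℝ) * ((m : ℝ) + 1) * max 1 (((2 : ℝ) ^ m) ^ ((a:ℝ) * θ - 2)))
          + 2 ^ a * B ^ a * (2 * M) := by gcongr
    _ ≤ 2 ^ a * (CW * (M : ℝ) * ((m : ℝ) + 1) ^ (2 * a + 1) *
            max 1 (((2 : ℝ) ^ m) ^ ((a:ℝ) * θ - 2)))
          + 2 ^ a * (C0 ^ a * ((m : ℝ) + 1) ^ (2 * a + 1) * ((2 : ℝ) ^ m) ^ (a * θ / 2))
            * (2 * M) := by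
        rw [hBa]
        have hp1 : ((m : ℝ) + 1) ≤ ((m : ℝ) + 1) ^ (2 * a + 1) :=
          le_self_pow₀ hm1 (by omega)
        have hp2 : ((m : ℝ) + 1) ^ (2 * a) ≤ ((m : ℝ) + 1) ^ (2 * a + 1) :=
          pow_le_pow_right₀ hm1 (by omega)
        gcongr
    _ ≤ _ := by
        have t1 : 0 ≤ 2 ^ a * (CW * (M : ℝ) * ((m : ℝ) + 1) ^ (2 * a + 1) *
            ((2 : ℝ) ^ m) ^ (a * θ / 2)) := by positivity
        have t2 : 0 ≤ 2 ^ a * (C0 ^ a * ((m : ℝ) + 1) ^ (2 * a + 1) *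
            max 1 (((2 : ℝ) ^ m) ^ ((a:ℝ) * θ - 2))) * (2 * M) := by positivity
        nlinarith [t1, t2]


open Classical in
/-- number of tuples in `(A ∩ [0,2^m))^k` with sum `n` fixed by `σ` -/
def D (A : Set ℕ) {k : ℕ} (σ : Equiv.Perm (Fin k)) (m n : ℕ) : ℕ :=
  ((Fintype.piFinset fun _ : Fin k => SA A m).filter
    (fun f => ∑ i, f i = n ∧ ∀ i, f (σ i) = f i)).card

/-- error scale -/
def GG (θ : ℝ) (k m : ℕ) : ℝ :=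
  ((2 : ℝ) ^ m) ^ ((k : ℝ) * θ - 2 - θ / 2) + ((2 : ℝ) ^ m) ^ ((k : ℝ) * θ / 2)

theorem sum_lt_of_mem {k N : ℕ} (hk : 1 ≤ k) (hN : 1 ≤ N) {f : Fin k → ℕ}
    (hf : ∀ i, f i < N) : ∑ i, f i < k * N := by
  calc ∑ i, f i ≤ ∑ i : Fin k, (N - 1) := Finset.sum_le_sum fun i _ => by have := hf i; omega
    _ = k * (N - 1) := by simp
    _ < k * N := by
      apply Nat.mul_lt_mul_of_pos_left (by omega) (by omega)

theorem card_ind (A : Set ℕ) (k m n : ℕ) :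
    open Classical in
    ∑ f ∈ (Fintype.piFinset fun _ : Fin k => range (2 ^ m)) with ∑ i, f i = n,
      ∏ i, (((if f i ∈ A then (1 : ℝ) else 0) : ℝ) : ℂ)
      = (D A (1 : Equiv.Perm (Fin k)) m n : ℂ) := by
  classical
  unfold D
  have : ((Fintype.piFinset fun _ : Fin k => SA A m).filter
      (fun f => ∑ i, f i = n ∧ ∀ i, f ((1 : Equiv.Perm (Fin k)) i) = f i))
      = ((Fintype.piFinset fun _ : Fin k => range (2 ^ m)).filter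
          (fun f => ∑ i, f i = n)).filter (fun f => ∀ i, f i ∈ A) := by
    ext f
    simp only [Finset.mem_filter, Fintype.mem_piFinset, SA, Equiv.Perm.coe_one, id]
    constructor
    · rintro ⟨h, h2, -⟩; exact ⟨⟨fun i => (h i).1, h2⟩, fun i => (h i).2⟩
    · rintro ⟨⟨h, h2⟩, h3⟩; exact ⟨fun i => ⟨h i, h3 i⟩, h2, fun _ => trivial⟩
  rw [this, Finset.card_filter, Nat.cast_sum]
  refine Finset.sum_congr rfl fun f _ => ?_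
  by_cases hf : ∀ i, f i ∈ A
  · rw [if_pos hf]
    simp [hf]
  · rw [if_neg hf]
    push Not at hf
    obtain ⟨i, hi⟩ := hf
    rw [Nat.cast_zero]
    exact Finset.prod_eq_zero (Finset.mem_univ i) (by simp [hi])

theorem step_one {θ : ℝ} (h0 : 0 < θ) (h1 : θ ≤ 1) (k : ℕ) (hk : 1 ≤ k)
    (hkθ : 2 ≤ ((k : ℝ) - 1) * θ) {A : Set ℕ} {C0 : ℝ} (hC0 : 0 < C0) (h : Small θ A C0) :
    ∃ C : ℝ, 0 < C ∧ ∀ m n : ℕ, n + 1 < 2 ^ m →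
      |((D A (1 : Equiv.Perm (Fin k)) m (n + 1) : ℝ) - D A (1 : Equiv.Perm (Fin k)) m n)
        - pc (k * θ - 1) (n + 1)| ≤ C * ((m : ℝ) + 1) ^ (2 * k + 1) * GG θ k m := by
  classical
  obtain ⟨CW, hCW, hW⟩ := W_bound' h0 h1 k hk (k - 1) C0 hC0
  refine ⟨k * C0 * CW, by positivity, fun m n hn => ?_⟩
  set M := k * 2 ^ m with hMdef
  have hM : 0 < M := by positivity
  have hMR : (0:ℝ) < (M:ℝ) := by exact_mod_cast hM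
  have hkR : (1:ℝ) ≤ k := by exact_mod_cast hk
  have hNM : 2 ^ m ≤ M := Nat.le_mul_of_pos_left _ (by omega)
  have hm1 : (1:ℝ) ≤ (m:ℝ) + 1 := by have : (0:ℝ) ≤ m := Nat.cast_nonneg m; linarith
  have hx1 : (1:ℝ) ≤ (2:ℝ) ^ m := one_le_pow₀ (by norm_num)
  set F := Fintype.piFinset fun _ : Fin k => range (2 ^ m) with hF
  have key := diff_norm F (fun f => ∑ i, f i)
    (fun f => (∏ i, (((if f i ∈ A then (1 : ℝ) else 0) : ℝ) : ℂ)) - ∏ i, (pc θ (f i) : ℂ))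
    M hM (fun f hf => by
      rw [hF, Fintype.mem_piFinset] at hf
      exact sum_lt_of_mem hk Nat.one_le_two_pow (fun i => Finset.mem_range.mp (hf i))) n (by omega)
  simp only [Finset.sum_sub_distrib] at key
  rw [card_ind, card_ind] at key
  have hp : ∀ j, j < 2 ^ m → ∑ f ∈ F with ∑ i, f i = j, ∏ i, (pc θ (f i) : ℂ)
      = ((pc (k * θ) j : ℝ) : ℂ) := by
    intro j hj
    rw [← pc_conv_pow θ k (2 ^ m) j hj]
    push_cast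
    rfl
  rw [hp (n + 1) hn, hp n (by omega)] at key
  have e1 : ((D A (1 : Equiv.Perm (Fin k)) m (n + 1) : ℝ) - D A (1 : Equiv.Perm (Fin k)) m n)
        - pc (k * θ - 1) (n + 1)
      = ((D A (1 : Equiv.Perm (Fin k)) m (n + 1) : ℝ) - pc (k * θ) (n + 1))
        - ((D A (1 : Equiv.Perm (Fin k)) m n : ℝ) - pc (k * θ) n) := by
    rw [← pc_succ_sub]; ring
  have e2 : |((D A (1 : Equiv.Perm (Fin k)) m (n + 1) : ℝ) - D A (1 : Equiv.Perm (Fin k)) m n)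
        - pc (k * θ - 1) (n + 1)|
      = ‖((D A (1 : Equiv.Perm (Fin k)) m (n + 1) : ℂ) - ((pc (k * θ) (n + 1) : ℝ) : ℂ))
        - ((D A (1 : Equiv.Perm (Fin k)) m n : ℂ) - ((pc (k * θ) n : ℝ) : ℂ))‖ := by
    rw [e1, ← Real.norm_eq_abs, ← Complex.norm_real]
    push_cast
    rfl
  rw [e2]
  -- bound the right-hand side
  set B := C0 * ((m : ℝ) + 1) ^ 2 * ((2 : ℝ) ^ m) ^ (θ / 2) with hB
  have hBpos : 0 ≤ B := by positivity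
  have key2 : ∑ t ∈ range M, ‖1 - zt M ^ t‖ *
      ‖∑ f ∈ F, ((∏ i, (((if f i ∈ A then (1 : ℝ) else 0) : ℝ) : ℂ)) - ∏ i, (pc θ (f i) : ℂ))
          * (zt M ^ t) ^ (∑ i, f i)‖
      ≤ k * B * ∑ t ∈ range M, ‖1 - zt M ^ t‖ *
          (‖∑ x ∈ range (2 ^ m), (pc θ x : ℂ) * (zt M ^ t) ^ x‖ + B) ^ (k - 1) := by
    rw [Finset.mul_sum]
    refine Finset.sum_le_sum fun t _ => ?_
    have hz : ‖zt M ^ t‖ = 1 := by rw [norm_pow, zt_norm', one_pow]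
    have e3 : ∑ f ∈ F, ((∏ i, (((if f i ∈ A then (1 : ℝ) else 0) : ℝ) : ℂ))
          - ∏ i, (pc θ (f i) : ℂ)) * (zt M ^ t) ^ (∑ i, f i)
        = (∑ x ∈ SA A m, (zt M ^ t) ^ x) ^ k
          - (∑ x ∈ range (2 ^ m), (pc θ x : ℂ) * (zt M ^ t) ^ x) ^ k := by
      simp only [sub_mul, Finset.sum_sub_distrib]
      rw [sum_SA, ← sum_pow_expand, ← sum_pow_expand]
    rw [e3]
    have := pow_sub_pow_le hBpos k (h.diff m (zt M ^ t) hz)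
    calc _ ≤ ‖1 - zt M ^ t‖ * (k * B *
          (‖∑ x ∈ range (2 ^ m), (pc θ x : ℂ) * (zt M ^ t) ^ x‖ + B) ^ (k - 1)) := by gcongr
      _ = _ := by ring
  have key3 := hW m
  have key4 : (M : ℝ) * ‖((D A (1 : Equiv.Perm (Fin k)) m (n + 1) : ℂ)
          - ((pc (k * θ) (n + 1) : ℝ) : ℂ))
        - ((D A (1 : Equiv.Perm (Fin k)) m n : ℂ) - ((pc (k * θ) n : ℝ) : ℂ))‖
      ≤ k * B * (CW * ((k * 2 ^ m : ℕ) : ℝ) * ((m : ℝ) + 1) ^ (2 * (k - 1) + 1) *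
            (max 1 (((2 : ℝ) ^ m) ^ (((k - 1 : ℕ) : ℝ) * θ - 2))
              + ((2 : ℝ) ^ m) ^ (((k - 1 : ℕ) : ℝ) * θ / 2))) := by
    refine key.trans (key2.trans ?_)
    gcongr
  have hk1 : ((k - 1 : ℕ) : ℝ) = (k : ℝ) - 1 := by push_cast [Nat.cast_sub hk]; ring
  have hmax : max 1 (((2 : ℝ) ^ m) ^ (((k - 1 : ℕ) : ℝ) * θ - 2))
      = ((2 : ℝ) ^ m) ^ (((k - 1 : ℕ) : ℝ) * θ - 2) := by
    apply max_eq_right
    apply Real.one_le_rpow hx1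
    rw [hk1]; linarith
  have e5 : k * B * (CW * ((k * 2 ^ m : ℕ) : ℝ) * ((m : ℝ) + 1) ^ (2 * (k - 1) + 1) *
            (max 1 (((2 : ℝ) ^ m) ^ (((k - 1 : ℕ) : ℝ) * θ - 2))
              + ((2 : ℝ) ^ m) ^ (((k - 1 : ℕ) : ℝ) * θ / 2)))
      = (M : ℝ) * (k * C0 * CW * ((m : ℝ) + 1) ^ (2 * k + 1) * GG θ k m) := by
    rw [hmax, hB, GG, hk1]
    have e6 : ((2 : ℝ) ^ m) ^ ((k : ℝ) * θ - 2 - θ / 2)
        = ((2 : ℝ) ^ m) ^ (θ / 2) * ((2 : ℝ) ^ m) ^ (((k : ℝ) - 1) * θ - 2) := by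
      rw [← Real.rpow_add (by positivity)]; congr 1; ring
    have e7 : ((2 : ℝ) ^ m) ^ ((k : ℝ) * θ / 2)
        = ((2 : ℝ) ^ m) ^ (θ / 2) * ((2 : ℝ) ^ m) ^ (((k : ℝ) - 1) * θ / 2) := by
      rw [← Real.rpow_add (by positivity)]; congr 1; ring
    have e8 : ((m : ℝ) + 1) ^ (2 * k + 1) = ((m : ℝ) + 1) ^ 2 * ((m : ℝ) + 1) ^ (2 * (k - 1) + 1) := by
      rw [← pow_add]; congr 1; omega
    rw [e6, e7, e8]
    ring
  rw [e5] at key4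
  exact le_of_mul_le_mul_left key4 hMR

theorem step_sigma {θ : ℝ} (h0 : 0 < θ) (h1 : θ ≤ 1) (k : ℕ) (hk : 1 ≤ k)
    {A : Set ℕ} {C0 : ℝ} (hC0 : 0 < C0) (h : Small θ A C0)
    (σ : Equiv.Perm (Fin k)) (hσ : σ ≠ 1) :
    ∃ C : ℝ, 0 < C ∧ ∀ m n : ℕ, n + 1 < 2 ^ m →
      |(D A σ m (n + 1) : ℝ) - D A σ m n| ≤ C * ((m : ℝ) + 1) ^ (2 * k + 1) * GG θ k m := by
  classical
  obtain ⟨a, b, hb, hab, hσb⟩ := sigma_bound k σ hσ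
  obtain ⟨CW, hCW, hW⟩ := W_bound' h0 h1 k hk a C0 hC0
  obtain ⟨C1, hC1, hcard⟩ := card_le h0 hC0 h
  refine ⟨3 * C1 ^ b * CW, by positivity, fun m n hn => ?_⟩
  set M := k * 2 ^ m with hMdef
  have hM : 0 < M := by positivity
  have hMR : (0:ℝ) < (M:ℝ) := by exact_mod_cast hM
  have hNM : 2 ^ m ≤ M := Nat.le_mul_of_pos_left _ (by omega)
  have hm1 : (1:ℝ) ≤ (m:ℝ) + 1 := by have : (0:ℝ) ≤ m := Nat.cast_nonneg m; linarith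
  have hx1 : (1:ℝ) ≤ (2:ℝ) ^ m := one_le_pow₀ (by norm_num)
  set F := (Fintype.piFinset fun _ : Fin k => SA A m).filter (fun f => ∀ i, f (σ i) = f i) with hF
  have hmemlt : ∀ f ∈ F, ∑ i, f i < M := by
    intro f hf
    rw [hF, Finset.mem_filter, Fintype.mem_piFinset] at hf
    refine sum_lt_of_mem hk Nat.one_le_two_pow (fun i => ?_)
    have := hf.1 i
    rw [SA, Finset.mem_filter, Finset.mem_range] at this
    exact this.1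
  have key := diff_norm F (fun f => ∑ i, f i) (fun _ => (1:ℂ)) M hM hmemlt n (by omega)
  have hD : ∀ j, (∑ f ∈ F with ∑ i, f i = j, (1:ℂ)) = (D A σ m j : ℂ) := by
    intro j
    rw [Finset.sum_const, nsmul_eq_mul, mul_one, D, hF, Finset.filter_filter]
    congr 2
    refine Finset.filter_congr fun f _ => ?_
    exact and_comm
  rw [hD, hD] at key
  have e2 : |(D A σ m (n + 1) : ℝ) - D A σ m n|
      = ‖(D A σ m (n + 1) : ℂ) - (D A σ m n : ℂ)‖ := by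
    rw [← Real.norm_eq_abs, ← Complex.norm_real]
    push_cast
    rfl
  rw [e2]
  set B := C0 * ((m : ℝ) + 1) ^ 2 * ((2 : ℝ) ^ m) ^ (θ / 2) with hB
  have hBpos : 0 ≤ B := by positivity
  have key2 : ∑ t ∈ range M, ‖1 - zt M ^ t‖ * ‖∑ f ∈ F, (1:ℂ) * (zt M ^ t) ^ (∑ i, f i)‖
      ≤ ((SA A m).card : ℝ) ^ b * ∑ t ∈ range M, ‖1 - zt M ^ t‖ *
          (‖∑ x ∈ range (2 ^ m), (pc θ x : ℂ) * (zt M ^ t) ^ x‖ + B) ^ a := by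
    rw [Finset.mul_sum]
    refine Finset.sum_le_sum fun t _ => ?_
    have hz : ‖zt M ^ t‖ = 1 := by rw [norm_pow, zt_norm', one_pow]
    have e3 := hσb (SA A m) (zt M ^ t) hz.le
    simp only [one_mul]
    have e4 : ‖∑ x ∈ SA A m, (zt M ^ t) ^ x‖
        ≤ ‖∑ x ∈ range (2 ^ m), (pc θ x : ℂ) * (zt M ^ t) ^ x‖ + B := by
      have e5 := h.diff m (zt M ^ t) hz
      calc ‖∑ x ∈ SA A m, (zt M ^ t) ^ x‖
          = ‖(∑ x ∈ range (2 ^ m), (pc θ x : ℂ) * (zt M ^ t) ^ x)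
            + ((∑ x ∈ SA A m, (zt M ^ t) ^ x)
              - ∑ x ∈ range (2 ^ m), (pc θ x : ℂ) * (zt M ^ t) ^ x)‖ := by ring_nf
        _ ≤ _ := (norm_add_le _ _).trans (by linarith)
    calc ‖1 - zt M ^ t‖ * ‖∑ f ∈ F, (zt M ^ t) ^ (∑ i, f i)‖
        ≤ ‖1 - zt M ^ t‖ * (‖∑ x ∈ SA A m, (zt M ^ t) ^ x‖ ^ a * ((SA A m).card : ℝ) ^ b) := by
          gcongr
      _ ≤ ‖1 - zt M ^ t‖ * ((‖∑ x ∈ range (2 ^ m), (pc θ x : ℂ) * (zt M ^ t) ^ x‖ + B) ^ a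
            * ((SA A m).card : ℝ) ^ b) := by gcongr
      _ = _ := by ring
  have hx0 : (0:ℝ) < (2:ℝ) ^ m := by positivity
  have hcb : ((SA A m).card : ℝ) ^ b ≤ C1 ^ b * ((2 : ℝ) ^ m) ^ ((b : ℝ) * θ) := by
    calc ((SA A m).card : ℝ) ^ b ≤ (C1 * ((2 : ℝ) ^ m) ^ θ) ^ b := by gcongr; exact hcard m
      _ = _ := by rw [mul_pow, ← Real.rpow_mul_natCast hx0.le]; congr 2; ring
  have key3 := hW m
  have habR : (a : ℝ) + 2 * b ≤ k := by exact_mod_cast hab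
  have hbR : (1:ℝ) ≤ b := by exact_mod_cast hb
  have hg : ((2 : ℝ) ^ m) ^ ((b : ℝ) * θ) *
      (max 1 (((2 : ℝ) ^ m) ^ ((a : ℝ) * θ - 2)) + ((2 : ℝ) ^ m) ^ ((a : ℝ) * θ / 2))
      ≤ 3 * GG θ k m := by
    have g1 : ((2 : ℝ) ^ m) ^ ((b : ℝ) * θ) ≤ ((2 : ℝ) ^ m) ^ ((k : ℝ) * θ / 2) := by
      apply Real.rpow_le_rpow_of_exponent_le hx1
      have ha0 : (0:ℝ) ≤ a := Nat.cast_nonneg a
      nlinarith
    have g2 : ((2 : ℝ) ^ m) ^ ((b : ℝ) * θ) * ((2 : ℝ) ^ m) ^ ((a : ℝ) * θ - 2)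
        ≤ ((2 : ℝ) ^ m) ^ ((k : ℝ) * θ - 2 - θ / 2) := by
      rw [← Real.rpow_add hx0]
      apply Real.rpow_le_rpow_of_exponent_le hx1
      nlinarith
    have g3 : ((2 : ℝ) ^ m) ^ ((b : ℝ) * θ) * ((2 : ℝ) ^ m) ^ ((a : ℝ) * θ / 2)
        ≤ ((2 : ℝ) ^ m) ^ ((k : ℝ) * θ / 2) := by
      rw [← Real.rpow_add hx0]
      apply Real.rpow_le_rpow_of_exponent_le hx1
      nlinarith
    have p1 : (0:ℝ) < ((2 : ℝ) ^ m) ^ ((k : ℝ) * θ / 2) := by positivity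
    have p2 : (0:ℝ) < ((2 : ℝ) ^ m) ^ ((k : ℝ) * θ - 2 - θ / 2) := by positivity
    have p3 : (0:ℝ) < ((2 : ℝ) ^ m) ^ ((b : ℝ) * θ) := by positivity
    have hmx : max 1 (((2 : ℝ) ^ m) ^ ((a : ℝ) * θ - 2)) ≤ 1 + ((2 : ℝ) ^ m) ^ ((a : ℝ) * θ - 2) := by
      apply max_le
      · have : (0:ℝ) < ((2 : ℝ) ^ m) ^ ((a : ℝ) * θ - 2) := by positivity
        linarith
      · linarith
    calc _ ≤ ((2 : ℝ) ^ m) ^ ((b : ℝ) * θ) *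
        ((1 + ((2 : ℝ) ^ m) ^ ((a : ℝ) * θ - 2)) + ((2 : ℝ) ^ m) ^ ((a : ℝ) * θ / 2)) := by gcongr
      _ ≤ 3 * GG θ k m := by
        rw [GG]
        nlinarith
  have key4 : (M : ℝ) * ‖(D A σ m (n + 1) : ℂ) - (D A σ m n : ℂ)‖
      ≤ (C1 ^ b * ((2 : ℝ) ^ m) ^ ((b : ℝ) * θ)) *
        (CW * ((k * 2 ^ m : ℕ) : ℝ) * ((m : ℝ) + 1) ^ (2 * a + 1) *
            (max 1 (((2 : ℝ) ^ m) ^ ((a : ℝ) * θ - 2))
              + ((2 : ℝ) ^ m) ^ ((a : ℝ) * θ / 2))) := by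
    refine key.trans (key2.trans ?_)
    gcongr
  have hmx0 : (0:ℝ) ≤ max 1 (((2 : ℝ) ^ m) ^ ((a : ℝ) * θ - 2))
      + ((2 : ℝ) ^ m) ^ ((a : ℝ) * θ / 2) :=
    add_nonneg (le_trans zero_le_one (le_max_left _ _)) (by positivity)
  have e6 : (C1 ^ b * ((2 : ℝ) ^ m) ^ ((b : ℝ) * θ)) *
        (CW * ((k * 2 ^ m : ℕ) : ℝ) * ((m : ℝ) + 1) ^ (2 * a + 1) *
            (max 1 (((2 : ℝ) ^ m) ^ ((a : ℝ) * θ - 2))
              + ((2 : ℝ) ^ m) ^ ((a : ℝ) * θ / 2)))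
      ≤ (M : ℝ) * (3 * C1 ^ b * CW * ((m : ℝ) + 1) ^ (2 * k + 1) * GG θ k m) := by
    have e7 : ((m : ℝ) + 1) ^ (2 * a + 1) ≤ ((m : ℝ) + 1) ^ (2 * k + 1) :=
      pow_le_pow_right₀ hm1 (by omega)
    calc _ = (M : ℝ) * (C1 ^ b * CW * ((m : ℝ) + 1) ^ (2 * a + 1) *
          (((2 : ℝ) ^ m) ^ ((b : ℝ) * θ) * (max 1 (((2 : ℝ) ^ m) ^ ((a : ℝ) * θ - 2))
              + ((2 : ℝ) ^ m) ^ ((a : ℝ) * θ / 2)))) := by rw [← hMdef]; ring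
      _ ≤ (M : ℝ) * (C1 ^ b * CW * ((m : ℝ) + 1) ^ (2 * k + 1) * (3 * GG θ k m)) := by gcongr
      _ = _ := by ring
  exact le_of_mul_le_mul_left (key4.trans e6) hMR

end Pool.Agent.Helper149.Thin
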